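import Pool.Agent.H320R4.HS.Defs

/-!
# The Fourier basis
-/

set_option autoImplicit false

namespace Pool.Agent.H320R4.HS

open Matrix

/-- The fifth root of unity `exp(2 π i / 5)`. -/
noncomputable def ζ : ℂ := Complex.exp (2 * Real.pi * Complex.I / (5 : ℕ))

theorem ζ_prim : IsPrimitiveRoot ζ 5 := Complex.isPrimitiveRoot_exp 5 (by norm_num)

theorem ζ5 : ζ ^ 5 = 1 := ζ_prim.pow_eq_one

theorem ζ_ne : ζ ≠ 0 := ζ_prim.ne_zero (by norm_num)

theorem ζΦ : 1 + ζ + ζ ^ 2 + ζ ^ 3 + ζ ^ 4 = 0 := by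
  have h := ζ_prim.geom_sum_eq_zero (by norm_num)
  simpa [Finset.sum_range_succ] using h

/-- The additive character of `ℤ / 5`. -/
noncomputable def e (a : Fin 5) : ℂ := ζ ^ a.val

theorem e_add (a b : Fin 5) : e (a + b) = e a * e b := by
  have h5 := ζ5
  unfold e
  fin_cases a <;> fin_cases b <;> simp <;>
    first
    | ring1
    | linear_combination (exp := 1) -h5
    | linear_combination (exp := 1) -ζ * h5
    | linear_combination (exp := 1) -ζ ^ 2 * h5
    | linear_combination (exp := 1) -ζ ^ 3 * h5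

theorem e_zero : e 0 = 1 := by simp [e]

theorem e_ne (a : Fin 5) : e a ≠ 0 := pow_ne_zero _ ζ_ne

theorem e_neg (a : Fin 5) : e (-a) = (e a)⁻¹ := by
  have h : e (-a) * e a = 1 := by rw [← e_add]; simp [e_zero]
  exact eq_inv_of_mul_eq_one_left h

theorem star_ζ : star ζ = ζ⁻¹ := by
  have h : ‖ζ‖ = 1 := ζ_prim.norm'_eq_one (by norm_num)
  rw [Complex.inv_def, Complex.normSq_eq_norm_sq, h]
  simp

theorem star_e (a : Fin 5) : star (e a) = e (-a) := by
  rw [e_neg, e, star_pow, star_ζ, inv_pow]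

theorem sum_e (m : Fin 5) : ∑ k, e (m * k) = if m = 0 then 5 else 0 := by
  have h := ζΦ
  fin_cases m
  · simp [e]
  all_goals
    simp [Fin.sum_univ_five, e, Fin.mul_def]
    linear_combination h

end Pool.Agent.H320R4.HS
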