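import Mathlib

/-!
# Orthogonal Shimura varieties: the objects in the hyperbolic analytic subspace conjecture

`J` is a rational symmetric `5 × 5` matrix of signature `(3, 2)`. The group is `G = SO(J)` over `ℚ`,
given by its complex points, a subgroup of `GL₅(ℂ)`. The Hermitian symmetric domain `X` is the set
of the isotropic lines `ℂ ω` with `(ω, ω̄) < 0`; a point of `X` is given by a vector `ω` which spans
the line. The point `ω` corresponds to the homomorphism `h_ω : S → G_ℝ` for which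
`z ∈ S(ℝ) = ℂˣ` is `z / z̄` on `ω`, `z̄ / z` on `ω̄` and `1` on the orthogonal complement.
-/

set_option autoImplicit false

namespace Pool.Agent.H320R4.HS

open Matrix

/-- `5 × 5` matrices -/
abbrev Mat : Type := Matrix (Fin 5) (Fin 5) ℂ

/-- vectors -/
abbrev Vec : Type := Fin 5 → ℂ

/-- the group `GL₅(ℂ)` -/
abbrev GL5 : Type := GL (Fin 5) ℂ

/-- A rational matrix as a complex matrix. -/
def toC (M : Matrix (Fin 5) (Fin 5) ℚ) : Mat := M.map (fun q => (q : ℂ))

/-- The rational symmetric matrix `J` has signature `(3, 2)`: it is congruent over `ℚ` to a diagonal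
matrix with three positive and two negative entries. -/
def Signature32 (J : Matrix (Fin 5) (Fin 5) ℚ) : Prop :=
  J.IsSymm ∧ ∃ (B : Matrix (Fin 5) (Fin 5) ℚ) (d : Fin 5 → ℚ), B.det ≠ 0 ∧
    Bᵀ * J * B = diagonal d ∧ 0 < d 0 ∧ 0 < d 1 ∧ 0 < d 2 ∧ d 3 < 0 ∧ d 4 < 0

/-- The `ℂ`-bilinear form given by `J`. -/
def form (J : Matrix (Fin 5) (Fin 5) ℚ) (x y : Vec) : ℂ := x ⬝ᵥ (toC J *ᵥ y)

/-- The group `SO(J)` (its complex points). -/
def SO (J : Matrix (Fin 5) (Fin 5) ℚ) : Subgroup GL5 where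
  carrier := {g | (g : Mat)ᵀ * toC J * (g : Mat) = toC J ∧ (g : Mat).det = 1}
  mul_mem' := by
    rintro a b ⟨ha, ha'⟩ ⟨hb, hb'⟩
    refine ⟨?_, by simp [ha', hb']⟩
    rw [Units.val_mul, transpose_mul]
    calc (b : Mat)ᵀ * (a : Mat)ᵀ * toC J * ((a : Mat) * (b : Mat))
        = (b : Mat)ᵀ * ((a : Mat)ᵀ * toC J * (a : Mat)) * (b : Mat) := by
          simp only [Matrix.mul_assoc]
      _ = toC J := by rw [ha, hb]
  one_mem' := by simp
  inv_mem' := by
    rintro a ⟨ha, ha'⟩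
    have h1 : (a : Mat) * ((a⁻¹ : GL5) : Mat) = 1 := by
      rw [← Units.val_mul, mul_inv_cancel, Units.val_one]
    refine ⟨?_, ?_⟩
    · calc ((a⁻¹ : GL5) : Mat)ᵀ * toC J * ((a⁻¹ : GL5) : Mat)
          = ((a⁻¹ : GL5) : Mat)ᵀ * ((a : Mat)ᵀ * toC J * (a : Mat)) * ((a⁻¹ : GL5) : Mat) := by
            rw [ha]
        _ = ((a : Mat) * ((a⁻¹ : GL5) : Mat))ᵀ * toC J * ((a : Mat) * ((a⁻¹ : GL5) : Mat)) := by
            rw [transpose_mul]
            simp only [Matrix.mul_assoc]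
        _ = toC J := by rw [h1]; simp
    · have h2 := congrArg Matrix.det h1
      rw [det_mul, ha', one_mul, det_one] at h2
      exact h2

/-- The vectors which span the lines in the domain: `(ω, ω) = 0` and `(ω, ω̄) < 0`. -/
def cone (J : Matrix (Fin 5) (Fin 5) ℚ) : Set Vec :=
  {ω | form J ω ω = 0 ∧ (form J ω (star ω)).re < 0}

/-- The matrix `h_ω(z)`: it is `z / z̄` on `ω`, `z̄ / z` on `ω̄` and `1` on the orthogonal complement
of `ω` and `ω̄`. -/
noncomputable def hodge (J : Matrix (Fin 5) (Fin 5) ℚ) (ω : Vec) (z : ℂ) : Mat :=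
  1 + ((z / star z - 1) / form J ω (star ω)) • vecMulVec ω (toC J *ᵥ star ω) +
    ((star z / z - 1) / form J ω (star ω)) • vecMulVec (star ω) (toC J *ᵥ ω)

/-- `H` contains the image of `h_ω`. -/
def HodgeIn (J : Matrix (Fin 5) (Fin 5) ℚ) (ω : Vec) (H : Subgroup GL5) : Prop :=
  ∀ z : ℂ, z ≠ 0 → ∃ g ∈ H, (g : Mat) = hodge J ω z

/-- `H` is (the group of the complex points of) an algebraic subgroup of `GL₅` defined over `ℚ`: it
is the zero set of a set of polynomials with rational coefficients in the entries. -/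
def IsQSubgroup (H : Subgroup GL5) : Prop :=
  ∃ S : Set (MvPolynomial (Fin 5 × Fin 5) ℚ),
    ∀ g : GL5, g ∈ H ↔ ∀ p ∈ S, MvPolynomial.aeval (fun ij => (g : Mat) ij.1 ij.2) p = 0

/-- The Mumford-Tate group of `ω`: the smallest algebraic subgroup of `SO(J)` over `ℚ` which contains
the image of `h_ω`. -/
def MT (J : Matrix (Fin 5) (Fin 5) ℚ) (ω : Vec) : Subgroup GL5 :=
  sInf {H | IsQSubgroup H ∧ H ≤ SO J ∧ HodgeIn J ω H}

/-- `T` is a torus: for some `n`, a matrix `P` and integers `A i j` it consists of the matrices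
`P D P⁻¹`, where `D` is the diagonal matrix with the entries `t₁ ^ A i 1 ⋯ tₙ ^ A i n` for
`t₁, …, tₙ ∈ ℂˣ`. -/
def IsTorus (T : Subgroup GL5) : Prop :=
  ∃ (n : ℕ) (P : GL5) (A : Fin 5 → Fin n → ℤ), ∀ g : GL5, g ∈ T ↔
    ∃ t : Fin n → ℂˣ,
      (g : Mat) = (P : Mat) * diagonal (fun i => ∏ j, ((t j : ℂ) ^ A i j)) * ((P⁻¹ : GL5) : Mat)

/-- `T` is a maximal torus of `G`. -/
def IsMaximalTorus (G T : Subgroup GL5) : Prop :=
  IsTorus T ∧ T ≤ G ∧ ∀ T' : Subgroup GL5, IsTorus T' → T' ≤ G → T ≤ T' → T' ≤ T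

/-- The holomorphic tangent space of the domain at `o`: the elements `Y` of the complex Lie algebra
of `SO(J)` with `Ad(h_o(z)) Y = (z / z̄)⁻¹ Y`. (`Y` is mapped to the tangent vector of `exp(t Y) o` at
`t = 0`.) -/
noncomputable def tangent (J : Matrix (Fin 5) (Fin 5) ℚ) (o : Vec) : Submodule ℂ Mat where
  carrier := {Y | Yᵀ * toC J + toC J * Y = 0 ∧
    ∀ z : ℂ, z ≠ 0 → hodge J o z * Y = (star z / z) • (Y * hodge J o z)}
  add_mem' := by
    rintro a b ⟨ha, ha'⟩ ⟨hb, hb'⟩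
    refine ⟨?_, fun z hz => ?_⟩
    · rw [transpose_add, Matrix.add_mul, Matrix.mul_add]
      calc aᵀ * toC J + bᵀ * toC J + (toC J * a + toC J * b)
          = (aᵀ * toC J + toC J * a) + (bᵀ * toC J + toC J * b) := by abel
        _ = 0 := by rw [ha, hb, add_zero]
    · rw [Matrix.mul_add, Matrix.add_mul, ha' z hz, hb' z hz, smul_add]
  zero_mem' := by simp
  smul_mem' := by
    rintro c a ⟨ha, ha'⟩
    refine ⟨?_, fun z hz => ?_⟩
    · rw [transpose_smul, Matrix.smul_mul, Matrix.mul_smul, ← smul_add, ha, smul_zero]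
    · rw [Matrix.mul_smul, Matrix.smul_mul, ha' z hz, smul_comm]

/-- The tangent space at `o` of the orbit of `o` under an algebraic subgroup `H` which contains the
image of `h_o` (it is the intersection of the tangent space of the domain with the Lie algebra of
`H`). -/
def tangentOf (J : Matrix (Fin 5) (Fin 5) ℚ) (o : Vec) (H : Subgroup GL5) : Set Mat :=
  {Y | Y ∈ tangent J o ∧ ∀ s : ℂ, ∃ g ∈ H, (g : Mat) = NormedSpace.exp (s • Y)}

/-- `Y` is the Harish-Chandra coordinate of the point `x` with respect to `o`: `exp(Y)` maps the line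
`o` to the line `x`. -/
def IsHarishChandra (J : Matrix (Fin 5) (Fin 5) ℚ) (o x : Vec) (Y : Mat) : Prop :=
  Y ∈ tangent J o ∧ ∃ c : ℂ, c ≠ 0 ∧ NormedSpace.exp Y *ᵥ o = c • x

/-- The field of the algebraic numbers. -/
noncomputable abbrev Qbar : IntermediateField ℚ ℂ := algebraicClosure ℚ ℂ

/-- `L` is a `Qbar`-structure on the complex vector space `W`. -/
def IsStructure (L : Submodule Qbar Mat) (W : Submodule ℂ Mat) : Prop :=
  ∃ (n : ℕ) (b : Fin n → Mat), LinearIndependent ℂ b ∧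
    Submodule.span ℂ (Set.range b) = W ∧ Submodule.span Qbar (Set.range b) = L

/-- `L` is stable under the action of the elements of `SO(J)(ℚ)` which fix the point `o`. -/
def StabStable (J : Matrix (Fin 5) (Fin 5) ℚ) (o : Vec) (L : Submodule Qbar Mat) : Prop :=
  ∀ g ∈ SO J, (∃ M : Matrix (Fin 5) (Fin 5) ℚ, (g : Mat) = toC M) →
    (∃ c : ℂ, (g : Mat) *ᵥ o = c • o) →
    ∀ Y ∈ L, (g : Mat) * Y * ((g⁻¹ : GL5) : Mat) ∈ L

/-- The complex subspace `V` is rational for `L`. -/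
def IsRational (L : Submodule Qbar Mat) (V : Submodule ℂ Mat) : Prop :=
  Submodule.span ℂ ((V : Set Mat) ∩ L) = V

end Pool.Agent.H320R4.HS
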