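import Pool.Agent.H320R4.HS.Extra

/-!
# The dimensions of the plane and of the tangent space
-/

set_option autoImplicit false

namespace Pool.Agent.H320R4.HS

open Matrix

theorem Yo_zero : Yo 0 0 0 = 0 := by
  have := Yo_smul 0 0 0 0
  simpa using this.symm

theorem finrank_Vp : Module.finrank ℂ Vp = 2 := by
  have h : LinearIndependent ℂ ![Yo 1 0 0, Yo 0 0 1] := by
    rw [LinearIndependent.pair_iff]
    intro s t hst
    rw [Yo_lin, ← Yo_zero] at hst
    have h1 := Yo_inj hst
    refine ⟨by simpa using h1.1, by simpa using h1.2.2⟩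
  have h2 := finrank_span_eq_card h
  have h3 : Set.range ![Yo 1 0 0, Yo 0 0 1] = {Yo 1 0 0, Yo 0 0 1} := by
    simp
    ext x
    simp
    tauto
  rw [h3] at h2
  exact h2.trans (Fintype.card_fin 2)

theorem bs_indep : LinearIndependent ℂ bs := by
  rw [Fintype.linearIndependent_iff]
  intro g hg
  rw [bs_comb (R := ℂ) id (fun _ _ => rfl), ← Yo_zero] at hg
  obtain ⟨h1, h2, h3⟩ := Yo_inj hg
  intro i
  fin_cases i
  · exact h1
  · exact h2
  · exact h3

theorem finrank_tangent : Module.finrank ℂ (tangent Jm o) = 3 := by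
  have h2 := finrank_span_eq_card bs_indep
  have h3 : Submodule.span ℂ (Set.range bs) = tangent Jm o := by
    ext Y
    rw [mem_tangent, Submodule.mem_span_range_iff_exists_fun]
    constructor
    · rintro ⟨g, rfl⟩
      exact ⟨_, _, _, bs_comb (R := ℂ) id (fun _ _ => rfl) g⟩
    · rintro ⟨a, b, c, rfl⟩
      exact ⟨![a, b, c], bs_comb (R := ℂ) id (fun _ _ => rfl) _⟩
  rw [h3] at h2
  simpa using h2

end Pool.Agent.H320R4.HS
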