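import Pool.Agent.H320R4.HS.Tangent

/-!
# The exponentials of the tangent vectors
-/

set_option autoImplicit false

namespace Pool.Agent.H320R4.HS

open Matrix

theorem exp_nil (Y : Mat) (h : Y * Y * Y = 0) :
    NormedSpace.exp Y = 1 + Y + (1 / 2 : ℂ) • (Y * Y) := by
  have h3 : ∀ n, n ∉ Finset.range 3 → ((n.factorial : ℂ)⁻¹) • Y ^ n = 0 := by
    intro n hn
    have h3n : 3 ≤ n := by
      by_contra h'
      exact hn (Finset.mem_range.2 (not_le.1 h'))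
    obtain ⟨k, rfl⟩ := Nat.exists_eq_add_of_le h3n
    rw [pow_add, pow_succ, pow_two, h, zero_mul, smul_zero]
  rw [NormedSpace.exp_eq_tsum ℂ]
  refine (tsum_eq_sum h3).trans ?_
  simp [Finset.sum_range_succ, pow_two]

/-- The exponentials in the Fourier basis. -/
noncomputable def Em (a b c : ℂ) : Mat :=
  !![1, a, 0, 0, 0; 0, 1, 0, 0, 0; 0, b, 1, 0, 0; 0, c, 0, 1, 0;
    -(q 0 / q 1 * a), -(q 0 / q 1 * (a * a) / 2 + q 2 / q 1 * (b * c)), -(q 2 / q 1 * c),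
      -(q 2 / q 1 * b), 1]

theorem Em_mul (a b c a' b' c' : ℂ) : Em a b c * Em a' b' c' = Em (a + a') (b + b') (c + c') := by
  ext i j
  rw [Matrix.mul_apply, Fin.sum_univ_five]
  fin_cases i <;> fin_cases j <;> simp [Em] <;> ring

theorem Em_zero : Em 0 0 0 = 1 := by
  ext i j
  fin_cases i <;> fin_cases j <;> simp [Em]

theorem FNF_mul (N N' : Mat) : F * N * Fi * (F * N' * Fi) = F * (N * N') * Fi := by
  calc F * N * Fi * (F * N' * Fi) = F * N * (Fi * F) * N' * Fi := by simp only [Matrix.mul_assoc]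
    _ = _ := by rw [Fi_mul_F, Matrix.mul_one]; simp only [Matrix.mul_assoc]

/-- The exponentials of the tangent vectors as elements of `GL₅(ℂ)`. -/
noncomputable def EG (a b c : ℂ) : GL5 :=
  ⟨F * Em a b c * Fi, F * Em (-a) (-b) (-c) * Fi,
    by rw [FNF_mul, Em_mul]; simp [Em_zero, F_mul_Fi],
    by rw [FNF_mul, Em_mul]; simp [Em_zero, F_mul_Fi]⟩

theorem EG_val (a b c : ℂ) : (EG a b c : Mat) = F * Em a b c * Fi := rfl

theorem EG_mul (a b c a' b' c' : ℂ) : EG a b c * EG a' b' c' = EG (a + a') (b + b') (c + c') := by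
  apply Units.ext
  rw [Units.val_mul, EG_val, EG_val, EG_val, FNF_mul, Em_mul]

theorem EG_zero : EG 0 0 0 = 1 := by
  apply Units.ext
  rw [EG_val, Em_zero, Matrix.mul_one, F_mul_Fi]
  rfl

theorem EG_inv (a b c : ℂ) : (EG a b c)⁻¹ = EG (-a) (-b) (-c) := by
  rw [inv_eq_iff_mul_eq_one, EG_mul]
  simp [EG_zero]

theorem Ny_sq (a b c : ℂ) : 1 + Ny a b c + (1 / 2 : ℂ) • (Ny a b c * Ny a b c) = Em a b c := by
  ext i j
  rw [Matrix.add_apply, Matrix.smul_apply, Matrix.mul_apply, Fin.sum_univ_five]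
  fin_cases i <;> fin_cases j <;> simp [Em, Ny] <;> ring

theorem Ny_cube (a b c : ℂ) : Ny a b c * Ny a b c * Ny a b c = 0 := by
  ext i j
  rw [Matrix.mul_apply]
  simp only [Matrix.mul_apply, Fin.sum_univ_five]
  fin_cases i <;> fin_cases j <;> simp [Ny]

theorem exp_Yo (a b c : ℂ) : NormedSpace.exp (Yo a b c) = (EG a b c : Mat) := by
  have h : Yo a b c * Yo a b c * Yo a b c = 0 := by
    unfold Yo
    rw [FNF_mul, FNF_mul, Ny_cube]
    simp
  rw [exp_nil _ h, EG_val, ← Ny_sq]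
  unfold Yo
  rw [FNF_mul, Matrix.mul_add, Matrix.mul_add, Matrix.add_mul, Matrix.add_mul, Matrix.mul_smul,
    Matrix.smul_mul, Matrix.mul_one, F_mul_Fi]

theorem exp_smul_Yo (s a b c : ℂ) :
    NormedSpace.exp (s • Yo a b c) = (EG (s * a) (s * b) (s * c) : Mat) := by
  rw [Yo_smul, exp_Yo]

theorem Ny_conj (a b c : ℂ) (x y : ℂ) (hx : x ≠ 0) (hy : y ≠ 0) :
    diagonal ![1, x, y, y⁻¹, x⁻¹] * Ny a b c =
      Ny (a / x) (b * y / x) (c / (x * y)) * diagonal ![1, x, y, y⁻¹, x⁻¹] := by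
  ext i j
  rw [diagonal_mul, mul_diagonal]
  fin_cases i <;> fin_cases j <;> simp [Ny] <;> field_simp

theorem Em_conj (a b c : ℂ) (x y : ℂ) (hx : x ≠ 0) (hy : y ≠ 0) :
    diagonal ![1, x, y, y⁻¹, x⁻¹] * Em a b c =
      Em (a / x) (b * y / x) (c / (x * y)) * diagonal ![1, x, y, y⁻¹, x⁻¹] := by
  ext i j
  rw [diagonal_mul, mul_diagonal]
  fin_cases i <;> fin_cases j <;> simp [Em] <;> field_simp

theorem Tel_conj (x y : ℂˣ) (a b c : ℂ) :
    Tel x y * EG a b c * (Tel x y)⁻¹ = EG (a / x) (b * y / x) (c / (x * y)) := by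
  rw [mul_inv_eq_iff_eq_mul]
  apply Units.ext
  rw [Units.val_mul, Units.val_mul, Tel_val, EG_val, EG_val]
  unfold Dm
  rw [FNF_mul, FNF_mul, Em_conj _ _ _ _ _ x.ne_zero y.ne_zero]

theorem Tel_conj_Yo (x y : ℂˣ) (a b c : ℂ) :
    (Tel x y : Mat) * Yo a b c * (((Tel x y)⁻¹ : GL5) : Mat) =
      Yo (a / x) (b * y / x) (c / (x * y)) := by
  have h : (Tel x y : Mat) * Yo a b c = Yo (a / x) (b * y / x) (c / (x * y)) * (Tel x y : Mat) := by
    rw [Tel_val]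
    unfold Dm Yo
    rw [FNF_mul, FNF_mul, Ny_conj _ _ _ _ _ x.ne_zero y.ne_zero]
  have h1 : (Tel x y : Mat) * (((Tel x y)⁻¹ : GL5) : Mat) = 1 := by
    rw [← Units.val_mul, mul_inv_cancel, Units.val_one]
  rw [h, Matrix.mul_assoc, h1, Matrix.mul_one]

end Pool.Agent.H320R4.HS
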