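import Pool.Agent.H320R4.HS.Rat

/-!
# Uniqueness of the Harish-Chandra coordinate and existence of a stable structure
-/

set_option autoImplicit false

namespace Pool.Agent.H320R4.HS

open Matrix

theorem hc_unique {Y : Mat} (h : IsHarishChandra Jm o zpt Y) : Y = Yo (1 / 2) 0 (-(w / 2)) := by
  obtain ⟨hY, k, hk, h1⟩ := h
  obtain ⟨a, b, c, rfl⟩ := mem_tangent.1 hY
  rw [exp_Yo, EG_val, ← γ_one, ← γ_zero] at h1
  unfold γ at h1
  rw [mulVec_mulVec, Matrix.mul_assoc, Fi_mul_F, Matrix.mul_one, ← mulVec_mulVec,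
    ← mulVec_smul] at h1
  have h2 := congrArg (fun v => Fi *ᵥ v) h1
  simp only [mulVec_mulVec, ← Matrix.mul_assoc, Fi_mul_F, Matrix.one_mul, one_mulVec] at h2
  have h20 := congrFun h2 0
  have h21 := congrFun h2 1
  have h22 := congrFun h2 2
  have h23 := congrFun h2 3
  simp [mulVec, dotProduct, Fin.sum_univ_five, Em, xs] at h20 h21 h22 h23
  subst h22
  congr 1
  · rw [h20]
    linear_combination (-1 / 2 : ℂ) * h21
  · rw [h23]
    linear_combination (w / 2 : ℂ) * h21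

theorem tangent_zero_smul {c : ℂ} (hc : c ≠ 0) (z : ℂ) : hodge Jm (c • o) z = hodge Jm o z := by
  have hs : star (c • o) = star c • star o := by rw [star_smul]
  have hc' : star c ≠ 0 := star_ne_zero.2 hc
  have hf : form Jm (c • o) (star c • star o) = c * star c * form Jm o (star o) := by
    unfold form
    rw [mulVec_smul, smul_dotProduct, dotProduct_smul, smul_eq_mul, smul_eq_mul, mul_assoc]
  have hq : form Jm o (star o) ≠ 0 := by
    rw [form_o_star]
    exact mul_ne_zero (by norm_num) (q_ne 1)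
  unfold hodge
  rw [hs, hf]
  congr 1
  · congr 1
    ext i j
    simp only [Matrix.smul_apply, vecMulVec_apply, mulVec_smul, Pi.smul_apply, smul_eq_mul]
    field_simp
  · ext i j
    simp only [Matrix.smul_apply, vecMulVec_apply, mulVec_smul, Pi.smul_apply, smul_eq_mul]
    field_simp

theorem conj_mem_tangent {g : GL5} (hg : g ∈ SO Jm) {M : Matrix (Fin 5) (Fin 5) ℚ}
    (hM : (g : Mat) = toC M) {c : ℂ} (hc : (g : Mat) *ᵥ o = c • o) {Y : Mat}
    (hY : Y ∈ tangent Jm o) : (g : Mat) * Y * ((g⁻¹ : GL5) : Mat) ∈ tangent Jm o := by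
  have hgi : (g : Mat) * ((g⁻¹ : GL5) : Mat) = 1 := by
    rw [← Units.val_mul, mul_inv_cancel, Units.val_one]
  have hgi' : ((g⁻¹ : GL5) : Mat) * (g : Mat) = 1 := by
    rw [← Units.val_mul, inv_mul_cancel, Units.val_one]
  have ho : o 0 = 1 := e_zero
  have hc0 : c ≠ 0 := by
    rintro rfl
    rw [zero_smul] at hc
    have h1 := congrArg (fun v => ((g⁻¹ : GL5) : Mat) *ᵥ v) hc
    simp only [mulVec_mulVec, hgi', one_mulVec, mulVec_zero] at h1
    have h2 := congrFun h1 0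
    rw [ho] at h2
    exact one_ne_zero h2
  have hh : ∀ z, hodge Jm o z * (g : Mat) = (g : Mat) * hodge Jm o z := by
    intro z
    have h1 := hodge_smul_mat hg hM o z
    rw [hc, tangent_zero_smul hc0] at h1
    calc hodge Jm o z * (g : Mat)
        = (g : Mat) * hodge Jm o z * ((g⁻¹ : GL5) : Mat) * (g : Mat) := by rw [← h1]
      _ = _ := by rw [Matrix.mul_assoc, hgi', Matrix.mul_one]
  have hh' : ∀ z, ((g⁻¹ : GL5) : Mat) * hodge Jm o z = hodge Jm o z * ((g⁻¹ : GL5) : Mat) := by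
    intro z
    calc ((g⁻¹ : GL5) : Mat) * hodge Jm o z
        = ((g⁻¹ : GL5) : Mat) * (hodge Jm o z * (g : Mat)) * ((g⁻¹ : GL5) : Mat) := by
          rw [Matrix.mul_assoc, Matrix.mul_assoc, hgi, Matrix.mul_one]
      _ = (((g⁻¹ : GL5) : Mat) * (g : Mat)) * hodge Jm o z * ((g⁻¹ : GL5) : Mat) := by
          rw [hh z]
          simp only [Matrix.mul_assoc]
      _ = _ := by rw [hgi', Matrix.one_mul]
  obtain ⟨h1, h2⟩ := hY
  have hJg : toC Jm * (g : Mat) = ((g⁻¹ : GL5) : Mat)ᵀ * toC Jm := by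
    calc toC Jm * (g : Mat)
        = ((g : Mat) * ((g⁻¹ : GL5) : Mat))ᵀ * toC Jm * (g : Mat) := by rw [hgi]; simp
      _ = ((g⁻¹ : GL5) : Mat)ᵀ * ((g : Mat)ᵀ * toC Jm * (g : Mat)) := by
          rw [transpose_mul]
          simp only [Matrix.mul_assoc]
      _ = _ := by rw [hg.1]
  have hgJ : (g : Mat)ᵀ * toC Jm = toC Jm * ((g⁻¹ : GL5) : Mat) := by
    calc (g : Mat)ᵀ * toC Jm = (g : Mat)ᵀ * toC Jm * ((g : Mat) * ((g⁻¹ : GL5) : Mat)) := by
          rw [hgi, Matrix.mul_one]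
      _ = ((g : Mat)ᵀ * toC Jm * (g : Mat)) * ((g⁻¹ : GL5) : Mat) := by
          simp only [Matrix.mul_assoc]
      _ = _ := by rw [hg.1]
  constructor
  · rw [transpose_mul, transpose_mul]
    calc ((g⁻¹ : GL5) : Mat)ᵀ * (Yᵀ * (g : Mat)ᵀ) * toC Jm +
          toC Jm * ((g : Mat) * Y * ((g⁻¹ : GL5) : Mat))
        = ((g⁻¹ : GL5) : Mat)ᵀ * Yᵀ * ((g : Mat)ᵀ * toC Jm) +
          (toC Jm * (g : Mat)) * Y * ((g⁻¹ : GL5) : Mat) := by simp only [Matrix.mul_assoc]
      _ = ((g⁻¹ : GL5) : Mat)ᵀ * (Yᵀ * toC Jm + toC Jm * Y) * ((g⁻¹ : GL5) : Mat) := by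
          rw [hgJ, hJg, Matrix.mul_add, Matrix.add_mul]
          simp only [Matrix.mul_assoc]
      _ = 0 := by rw [h1]; simp
  · intro z hz
    calc hodge Jm o z * ((g : Mat) * Y * ((g⁻¹ : GL5) : Mat))
        = (hodge Jm o z * (g : Mat)) * Y * ((g⁻¹ : GL5) : Mat) := by simp only [Matrix.mul_assoc]
      _ = (g : Mat) * (hodge Jm o z * Y) * ((g⁻¹ : GL5) : Mat) := by
          rw [hh z]
          simp only [Matrix.mul_assoc]
      _ = (star z / z) • ((g : Mat) * Y * (hodge Jm o z * ((g⁻¹ : GL5) : Mat))) := by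
          rw [h2 z hz, Matrix.mul_smul, Matrix.smul_mul]
          simp only [Matrix.mul_assoc]
      _ = _ := by
          rw [← hh' z]
          simp only [Matrix.mul_assoc]

/-- The basis of the tangent space. -/
noncomputable def bs : Fin 3 → Mat := ![Yo 1 0 0, Yo 0 1 0, Yo 0 0 1]

theorem bs_comb {R : Type*} [Semiring R] [Module R Mat] (f : R → ℂ)
    (hf : ∀ (r : R) (Y : Mat), r • Y = f r • Y) (g : Fin 3 → R) :
    ∑ i, g i • bs i = Yo (f (g 0)) (f (g 1)) (f (g 2)) := by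
  rw [Fin.sum_univ_three, hf, hf, hf]
  simp only [bs]
  have h : ∀ a b c, Yo a b c = a • Yo 1 0 0 + b • Yo 0 1 0 + c • Yo 0 0 1 := by
    intro a b c
    have h1 := Yo_lin a 1 0 0 b 0 1 0
    have h2 := Yo_lin 1 (a * 1 + b * 0) (a * 0 + b * 1) (a * 0 + b * 0) c 0 0 1
    rw [one_smul] at h2
    rw [h1, h2]
    simp
  rw [h (f (g 0))]
  simp

theorem exists_stable : ∃ L : Submodule Qbar Mat, IsStructure L (tangent Jm o) ∧
    StabStable Jm o L := by
  refine ⟨Submodule.span Qbar (Set.range bs), ⟨3, bs, ?_, ?_, rfl⟩, ?_⟩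
  · rw [Fintype.linearIndependent_iff]
    intro g hg
    rw [bs_comb (R := ℂ) id (fun _ _ => rfl)] at hg
    have h0 : Yo 0 0 0 = 0 := by
      have := Yo_smul 0 0 0 0
      simpa using this.symm
    rw [← h0] at hg
    obtain ⟨h1, h2, h3⟩ := Yo_inj hg
    intro i
    fin_cases i
    · exact h1
    · exact h2
    · exact h3
  · ext Y
    rw [mem_tangent, Submodule.mem_span_range_iff_exists_fun]
    constructor
    · rintro ⟨g, rfl⟩
      exact ⟨_, _, _, bs_comb (R := ℂ) id (fun _ _ => rfl) g⟩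
    · rintro ⟨a, b, c, rfl⟩
      exact ⟨![a, b, c], bs_comb (R := ℂ) id (fun _ _ => rfl) _⟩
  · rintro g hg ⟨M, hM⟩ ⟨c, hc⟩ Y hY
    rw [Submodule.mem_span_range_iff_exists_fun] at hY ⊢
    obtain ⟨f, rfl⟩ := hY
    have hsm : ∀ (r : Qbar) (Y : Mat), r • Y = (r : ℂ) • Y := fun _ _ => rfl
    rw [bs_comb (R := Qbar) (fun r => (r : ℂ)) hsm] at *
    obtain ⟨a', b', c', h1⟩ := mem_tangent.1 (conj_mem_tangent hg hM hc (Yo_mem (f 0) (f 1) (f 2)))
    -- the matrices with algebraic entries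
    have mulm : ∀ A B : Mat, (∀ i j, A i j ∈ Qbar) → (∀ i j, B i j ∈ Qbar) →
        ∀ i j, (A * B) i j ∈ Qbar := by
      intro A B hA hB i j
      rw [mul_apply]
      exact sum_mem fun k _ => mul_mem (hA i k) (hB k j)
    have hF : ∀ i j, F i j ∈ Qbar := fun i j => e_mem _
    have hFi : ∀ i j, Fi i j ∈ Qbar := by
      intro i j
      refine mul_mem ?_ (e_mem _)
      have : ((1 / 5 : ℚ) : ℂ) ∈ Qbar := algebraMap_mem Qbar (1 / 5 : ℚ)
      simpa using this
    have hratm : ∀ (N : Matrix (Fin 5) (Fin 5) ℚ) (i j), toC N i j ∈ Qbar := by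
      intro N i j
      exact algebraMap_mem Qbar (N i j)
    have hgi : ∀ i j, ((g⁻¹ : GL5) : Mat) i j ∈ Qbar := by
      have h2 : ((g⁻¹ : GL5) : Mat) = toC M⁻¹ := by
        have hdet : IsUnit M.det := by
          have h3 := hg.2
          rw [hM] at h3
          have h4 : (toC M).det = ((M.det : ℚ) : ℂ) := by
            unfold toC
            exact ((algebraMap ℚ ℂ).map_det M).symm
          rw [h4] at h3
          have h5 : M.det = 1 := by exact_mod_cast h3
          rw [h5]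
          exact isUnit_one
        have h6 : (g : Mat) * toC M⁻¹ = 1 := by
          rw [hM, ← toC_mul, mul_nonsing_inv _ hdet, toC_one]
        calc ((g⁻¹ : GL5) : Mat) = ((g⁻¹ : GL5) : Mat) * ((g : Mat) * toC M⁻¹) := by
              rw [h6, Matrix.mul_one]
          _ = (((g⁻¹ : GL5) : Mat) * (g : Mat)) * toC M⁻¹ := by rw [Matrix.mul_assoc]
          _ = _ := by rw [← Units.val_mul, inv_mul_cancel, Units.val_one, Matrix.one_mul]
      intro i j
      rw [h2]
      exact hratm _ i j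
    have hqm : ∀ k, q k ∈ Qbar := by
      intro k
      have h3 : ((3 : ℚ) : ℂ) ∈ Qbar := algebraMap_mem Qbar (3 : ℚ)
      have h2 : ((2 : ℚ) : ℂ) ∈ Qbar := algebraMap_mem Qbar (2 : ℚ)
      have h3' : (3 : ℂ) ∈ Qbar := by simpa using h3
      have h2' : (2 : ℂ) ∈ Qbar := by simpa using h2
      exact add_mem (add_mem h2' (mul_mem h3' (e_mem _))) (mul_mem h3' (e_mem _))
    have hN : ∀ i j, Ny (f 0) (f 1) (f 2) i j ∈ Qbar := by
      have hd : q 0 / q 1 ∈ Qbar := div_mem (hqm 0) (hqm 1)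
      have hd2 : q 2 / q 1 ∈ Qbar := div_mem (hqm 2) (hqm 1)
      intro i j
      fin_cases i <;> fin_cases j <;> simp only [Ny] <;>
        first
        | exact zero_mem _
        | exact (f 0).2
        | exact (f 1).2
        | exact (f 2).2
        | exact neg_mem (mul_mem hd (f 0).2)
        | exact neg_mem (mul_mem hd2 (f 1).2)
        | exact neg_mem (mul_mem hd2 (f 2).2)
    have hall : ∀ i j, (Fi * ((g : Mat) * Yo (f 0) (f 1) (f 2) * ((g⁻¹ : GL5) : Mat)) * F) i j ∈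
        Qbar := by
      refine mulm _ _ (mulm _ _ hFi (mulm _ _ (mulm _ _ ?_ ?_) hgi)) hF
      · rw [hM]
        exact hratm M
      · exact mulm _ _ (mulm _ _ hF hN) hFi
    have h7 : Fi * ((g : Mat) * Yo (f 0) (f 1) (f 2) * ((g⁻¹ : GL5) : Mat)) * F = Ny a' b' c' := by
      rw [h1]
      unfold Yo
      calc Fi * (F * Ny a' b' c' * Fi) * F = (Fi * F) * Ny a' b' c' * (Fi * F) := by
            simp only [Matrix.mul_assoc]
        _ = _ := by rw [Fi_mul_F]; simp
    rw [h7] at hall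
    have ha : a' ∈ Qbar := by simpa [Ny] using hall 0 1
    have hb : b' ∈ Qbar := by simpa [Ny] using hall 2 1
    have hc' : c' ∈ Qbar := by simpa [Ny] using hall 3 1
    refine ⟨![⟨a', ha⟩, ⟨b', hb⟩, ⟨c', hc'⟩], ?_⟩
    rw [bs_comb (R := Qbar) (fun r => (r : ℂ)) hsm]
    exact h1.symm

end Pool.Agent.H320R4.HS
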