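import Pool.Agent.H320R4.HS.Basic

/-!
# The example: the cyclic form
-/

set_option autoImplicit false

namespace Pool.Agent.H320R4.HS

open Matrix

/-- The Fourier matrix. -/
noncomputable def F : Mat := Matrix.of fun j k => e (j * k)

/-- The inverse of the Fourier matrix. -/
noncomputable def Fi : Mat := Matrix.of fun k j => (1 / 5 : ℂ) * e (-(j * k))

theorem fin1 : ∀ i j k : Fin 5, i * k + -(j * k) = (i - j) * k := by decide

theorem F_mul_Fi : F * Fi = 1 := by
  ext i j
  rw [mul_apply]
  have h : ∀ k, F i k * Fi k j = (1 / 5) * e ((i - j) * k) := by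
    intro k
    simp only [F, Fi, of_apply]
    rw [← fin1, e_add]
    ring
  simp only [h]
  rw [← Finset.mul_sum, sum_e, one_apply]
  by_cases hij : i = j
  · simp [hij]
  · have : i - j ≠ 0 := sub_ne_zero.2 hij
    simp [this, hij]

theorem Fi_mul_F : Fi * F = 1 := by
  rw [mul_eq_one_comm]
  exact F_mul_Fi

/-- The Fourier matrix as an element of `GL₅(ℂ)`. -/
noncomputable def FG : GL5 := ⟨F, Fi, F_mul_Fi, Fi_mul_F⟩

theorem FG_val : (FG : Mat) = F := rfl

theorem FG_inv : ((FG⁻¹ : GL5) : Mat) = Fi := rfl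

/-- The matrix with the eigenvalue `d k` on the `k`-th Fourier vector. -/
noncomputable def Dm (d : Fin 5 → ℂ) : Mat := F * diagonal d * Fi

theorem Dm_mul (d d' : Fin 5 → ℂ) : Dm d * Dm d' = Dm (fun k => d k * d' k) := by
  unfold Dm
  calc F * diagonal d * Fi * (F * diagonal d' * Fi)
      = F * diagonal d * (Fi * F) * diagonal d' * Fi := by simp only [Matrix.mul_assoc]
    _ = _ := by rw [Fi_mul_F, Matrix.mul_one, Matrix.mul_assoc F, diagonal_mul_diagonal]

theorem Dm_one : Dm (fun _ => 1) = 1 := by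
  unfold Dm
  rw [diagonal_one, Matrix.mul_one, F_mul_Fi]

/-- The same as an element of `GL₅(ℂ)`. -/
noncomputable def DG (d : Fin 5 → ℂˣ) : GL5 :=
  ⟨Dm fun k => (d k : ℂ), Dm fun k => (((d k)⁻¹ : ℂˣ) : ℂ), by rw [Dm_mul]; simp [Dm_one],
    by rw [Dm_mul]; simp [Dm_one]⟩

theorem DG_val (d : Fin 5 → ℂˣ) : (DG d : Mat) = Dm fun k => (d k : ℂ) := rfl

theorem DG_mul (d d' : Fin 5 → ℂˣ) : DG d * DG d' = DG (fun k => d k * d' k) := by
  apply Units.ext
  rw [Units.val_mul, DG_val, DG_val, DG_val, Dm_mul]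
  simp

theorem Dm_apply (d : Fin 5 → ℂ) (i j : Fin 5) :
    Dm d i j = ∑ k, (1 / 5) * (d k * e ((i - j) * k)) := by
  unfold Dm
  rw [mul_apply]
  refine Finset.sum_congr rfl fun k _ => ?_
  rw [mul_diagonal]
  simp only [F, Fi, of_apply]
  rw [← fin1, e_add]
  ring

/-- The form. -/
def Jm : Matrix (Fin 5) (Fin 5) ℚ :=
  !![2, 0, 3, 3, 0; 0, 2, 0, 3, 3; 3, 0, 2, 0, 3; 3, 3, 0, 2, 0; 0, 3, 3, 0, 2]

/-- The eigenvalues of the form. -/
noncomputable def q (k : Fin 5) : ℂ := 2 + 3 * e (2 * k) + 3 * e (3 * k)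

theorem q_neg (k : Fin 5) : q (-k) = q k := by
  unfold q
  have h1 : ∀ k : Fin 5, 2 * -k = 3 * k := by decide
  have h2 : ∀ k : Fin 5, 3 * -k = 2 * k := by decide
  rw [h1, h2]
  ring

theorem J_mul_F : toC Jm * F = F * diagonal q := by
  ext i k
  rw [mul_diagonal, mul_apply]
  have h2 : ∀ i k : Fin 5, (i + 2) * k = i * k + 2 * k := by decide
  have h3 : ∀ i k : Fin 5, (i + 3) * k = i * k + 3 * k := by decide
  have h : (∑ j, toC Jm i j * F j k) = 2 * F i k + 3 * F (i + 2) k + 3 * F (i + 3) k := by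
    fin_cases i <;> simp [Fin.sum_univ_five, toC, Jm] <;> ring
  rw [h]
  simp only [F, of_apply, q]
  rw [h2, h3, e_add, e_add]
  ring

theorem FtF (k l : Fin 5) : (Fᵀ * F) k l = if k + l = 0 then 5 else 0 := by
  rw [mul_apply]
  have h1 : ∀ j k l : Fin 5, j * k + j * l = (k + l) * j := by decide
  have h : ∀ j, Fᵀ k j * F j l = e ((k + l) * j) := by
    intro j
    simp only [F, transpose_apply, of_apply]
    rw [← e_add, h1]
  simp only [h]
  exact sum_e _

/-- The form in the Fourier basis. -/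
noncomputable def Am : Mat := Matrix.of fun k l => if k + l = 0 then 5 * q l else 0

theorem FtJF : Fᵀ * toC Jm * F = Am := by
  rw [Matrix.mul_assoc, J_mul_F, ← Matrix.mul_assoc]
  ext k l
  rw [mul_diagonal, FtF]
  simp only [Am, of_apply]
  split_ifs <;> simp

/-- The point `o`. -/
noncomputable def o : Vec := fun j => e j

theorem F_one (j : Fin 5) : F j 1 = o j := by simp [F, o]

theorem star_o : star o = fun j => e (-j) := by
  funext j
  simp only [Pi.star_apply, o]
  exact star_e j

theorem F_four (j : Fin 5) : F j 4 = star o j := by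
  rw [star_o]
  simp only [F, of_apply]
  congr 1
  revert j
  decide

theorem mulVec_F (k : Fin 5) : toC Jm *ᵥ (fun j => F j k) = fun j => q k * F j k := by
  funext i
  have := congrFun (congrFun J_mul_F i) k
  rw [mul_diagonal, mul_apply] at this
  simp only [mulVec, dotProduct]
  rw [this]
  ring

theorem J_o : toC Jm *ᵥ o = fun j => q 1 * o j := by
  have h : o = fun j => F j 1 := by funext j; rw [F_one]
  rw [h]
  exact mulVec_F 1

theorem J_star_o : toC Jm *ᵥ star o = fun j => q 1 * star o j := by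
  have h : star o = fun j => F j 4 := by funext j; rw [F_four]
  rw [h, mulVec_F 4]
  have : q 4 = q 1 := q_neg 1
  rw [this]

theorem form_o_star : form Jm o (star o) = 5 * q 1 := by
  unfold form
  rw [J_star_o]
  simp only [dotProduct]
  have h : ∀ j, o j * (q 1 * star o j) = q 1 := by
    intro j
    rw [star_o]
    simp only [o]
    have : e j * e (-j) = 1 := by rw [← e_add]; simp [e_zero]
    linear_combination q 1 * this
  simp only [h]
  simp

theorem form_o : form Jm o o = 0 := by
  unfold form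
  rw [J_o]
  simp only [dotProduct]
  have h2 : ∀ j : Fin 5, j + j = 2 * j := by decide
  have h : ∀ j, o j * (q 1 * o j) = q 1 * e (2 * j) := by
    intro j
    simp only [o]
    rw [← h2, e_add]
    ring
  simp only [h]
  rw [← Finset.mul_sum, sum_e]
  simp

end Pool.Agent.H320R4.HS
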