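import Pool.Agent.H320R4.HS.MTo

/-!
# The special point `z`
-/

set_option autoImplicit false

namespace Pool.Agent.H320R4.HS

open Matrix

theorem toC_mul (A B : Matrix (Fin 5) (Fin 5) ℚ) : toC (A * B) = toC A * toC B := by
  unfold toC
  exact (Matrix.map_mul (f := (algebraMap ℚ ℂ)))

theorem toC_one : toC 1 = 1 := by
  unfold toC
  exact Matrix.map_one _ (by simp) (by simp)

theorem toC_transpose (A : Matrix (Fin 5) (Fin 5) ℚ) : toC Aᵀ = (toC A)ᵀ := rfl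

theorem star_toC_mulVec (M : Matrix (Fin 5) (Fin 5) ℚ) (v : Vec) :
    star (toC M *ᵥ v) = toC M *ᵥ star v := by
  funext i
  simp [mulVec, dotProduct, toC]

theorem form_mulVec {J : Matrix (Fin 5) (Fin 5) ℚ} {g : Mat} (hg : gᵀ * toC J * g = toC J)
    (x y : Vec) : form J (g *ᵥ x) (g *ᵥ y) = form J x y := by
  unfold form
  rw [← hg, mulVec_mulVec]
  simp only [dotProduct_mulVec, vecMul_mulVec, ← Matrix.mul_assoc, hg]

theorem hodge_smul_mat {J : Matrix (Fin 5) (Fin 5) ℚ} {g : GL5} (hg : g ∈ SO J)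
    {M : Matrix (Fin 5) (Fin 5) ℚ} (hM : (g : Mat) = toC M) (ω : Vec) (z : ℂ) :
    hodge J ((g : Mat) *ᵥ ω) z = (g : Mat) * hodge J ω z * ((g⁻¹ : GL5) : Mat) := by
  have hgi : (g : Mat) * ((g⁻¹ : GL5) : Mat) = 1 := by
    rw [← Units.val_mul, mul_inv_cancel, Units.val_one]
  have hs : star ((g : Mat) *ᵥ ω) = (g : Mat) *ᵥ star ω := by rw [hM]; exact star_toC_mulVec M ω
  have hJ : ∀ v : Vec, toC J *ᵥ ((g : Mat) *ᵥ v) = (toC J *ᵥ v) ᵥ* ((g⁻¹ : GL5) : Mat) := by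
    intro v
    have h1 : ((g⁻¹ : GL5) : Mat)ᵀ * ((g : Mat)ᵀ * toC J * (g : Mat)) = toC J * (g : Mat) := by
      calc ((g⁻¹ : GL5) : Mat)ᵀ * ((g : Mat)ᵀ * toC J * (g : Mat))
          = ((g : Mat) * ((g⁻¹ : GL5) : Mat))ᵀ * toC J * (g : Mat) := by
            rw [transpose_mul]
            simp only [Matrix.mul_assoc]
        _ = _ := by rw [hgi]; simp
    rw [hg.1] at h1
    rw [mulVec_mulVec, ← h1, ← mulVec_mulVec, ← vecMul_transpose, transpose_transpose]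
  unfold hodge
  rw [hs, form_mulVec hg.1, hJ, hJ, Matrix.mul_add, Matrix.mul_add, Matrix.add_mul, Matrix.add_mul,
    Matrix.mul_one, hgi, Matrix.mul_smul, Matrix.mul_smul, Matrix.smul_mul, Matrix.smul_mul,
    mul_vecMulVec, mul_vecMulVec, vecMulVec_mul, vecMulVec_mul]

/-- The conjugate `h H h⁻¹`. -/
def cj (h : GL5) (H : Subgroup GL5) : Subgroup GL5 := H.comap (MulAut.conj h⁻¹).toMonoidHom

theorem mem_cj {h g : GL5} {H : Subgroup GL5} : g ∈ cj h H ↔ h⁻¹ * g * h ∈ H := by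
  simp [cj]

theorem isQ_cj {h : GL5} {M M' : Matrix (Fin 5) (Fin 5) ℚ} (hM : (h : Mat) = toC M)
    (hM' : ((h⁻¹ : GL5) : Mat) = toC M') {H : Subgroup GL5} (hH : IsQSubgroup H) :
    IsQSubgroup (cj h H) := by
  obtain ⟨S, hS⟩ := hH
  refine ⟨(MvPolynomial.bind₁ fun ij : Fin 5 × Fin 5 => (cM M' * XM * cM M) ij.1 ij.2) '' S,
    fun g => ?_⟩
  rw [mem_cj, hS]
  have key : ∀ p : MvPolynomial (Fin 5 × Fin 5) ℚ,
      MvPolynomial.aeval (fun ij : Fin 5 × Fin 5 => (g : Mat) ij.1 ij.2)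
        (MvPolynomial.bind₁ (fun ij : Fin 5 × Fin 5 => (cM M' * XM * cM M) ij.1 ij.2) p) =
      MvPolynomial.aeval
        (fun ij : Fin 5 × Fin 5 => ((h⁻¹ * g * h : GL5) : Mat) ij.1 ij.2) p := by
    intro p
    rw [MvPolynomial.aeval_bind₁]
    congr 2
    funext ij
    have h1 : (evG (g : Mat)).mapMatrix (cM M' * XM * cM M) = ((h⁻¹ * g * h : GL5) : Mat) := by
      rw [map_mul, map_mul, evG_X, evG_c, evG_c, Units.val_mul, Units.val_mul, hM, hM']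
    rw [← h1, evG_apply]
    rfl
  constructor
  · rintro h1 _ ⟨p, hp, rfl⟩
    rw [key]
    exact h1 p hp
  · intro h1 p hp
    rw [← key]
    exact h1 _ ⟨p, hp, rfl⟩

theorem isTorus_cj {h : GL5} {T : Subgroup GL5} (hT : IsTorus T) : IsTorus (cj h T) := by
  obtain ⟨n, P, A, hA⟩ := hT
  refine ⟨n, h * P, A, fun g => ?_⟩
  rw [mem_cj, hA]
  refine exists_congr fun t => ?_
  have h1 : (h : Mat) * ((h⁻¹ : GL5) : Mat) = 1 := by
    rw [← Units.val_mul, mul_inv_cancel, Units.val_one]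
  have h2 : ((h⁻¹ : GL5) : Mat) * (h : Mat) = 1 := by
    rw [← Units.val_mul, inv_mul_cancel, Units.val_one]
  rw [_root_.mul_inv_rev, Units.val_mul, Units.val_mul, Units.val_mul, Units.val_mul]
  generalize (diagonal fun i => ∏ j, ((t j : ℂ) ^ A i j)) = D
  constructor
  · intro h3
    calc (g : Mat) = (h : Mat) * (((h⁻¹ : GL5) : Mat) * (g : Mat) * (h : Mat)) *
          ((h⁻¹ : GL5) : Mat) := by
          calc (g : Mat) = ((h : Mat) * ((h⁻¹ : GL5) : Mat)) * (g : Mat) *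
                ((h : Mat) * ((h⁻¹ : GL5) : Mat)) := by rw [h1]; simp
            _ = _ := by simp only [Matrix.mul_assoc]
      _ = _ := by rw [h3]; simp only [Matrix.mul_assoc]
  · intro h3
    rw [h3]
    calc ((h⁻¹ : GL5) : Mat) * ((h : Mat) * (P : Mat) * D * (((P⁻¹ : GL5) : Mat) *
          ((h⁻¹ : GL5) : Mat))) * (h : Mat)
        = (((h⁻¹ : GL5) : Mat) * (h : Mat)) * (P : Mat) * D * ((P⁻¹ : GL5) : Mat) *
          (((h⁻¹ : GL5) : Mat) * (h : Mat)) := by simp only [Matrix.mul_assoc]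
      _ = _ := by rw [h2, Matrix.one_mul, Matrix.mul_one]

/-- The isometry which maps `o` to `z`. -/
def gq : Matrix (Fin 5) (Fin 5) ℚ :=
  (1 / 5 : ℚ) • !![15, 4, 2, 2, 4; 10, 11, 1, 3, 2; -5, -4, 1, -2, -3; -5, -3, -2, 1, -4;
    10, 2, 3, 1, 11]

theorem det_gq : gq.det = 1 := by
  rw [gq, det_smul]
  have : (!![15, 4, 2, 2, 4; 10, 11, 1, 3, 2; -5, -4, 1, -2, -3; -5, -3, -2, 1, -4;
    10, 2, 3, 1, 11] : Matrix (Fin 5) (Fin 5) ℚ).det = 3125 := by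
    simp [det_succ_row_zero, Fin.sum_univ_succ, Fin.succAbove]
    norm_num
  rw [this]
  norm_num

theorem gq_iso : gqᵀ * Jm * gq = Jm := by
  ext i j
  fin_cases i <;> fin_cases j <;>
    simp [gq, Jm, Matrix.mul_apply, Fin.sum_univ_five] <;> norm_num

theorem gq_unit : IsUnit gq.det := by rw [det_gq]; exact isUnit_one

/-- The isometry as an element of `GL₅(ℂ)`. -/
noncomputable def g₀ : GL5 := ⟨toC gq, toC gq⁻¹, by
    rw [← toC_mul, mul_nonsing_inv _ gq_unit, toC_one], by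
    rw [← toC_mul, nonsing_inv_mul _ gq_unit, toC_one]⟩

theorem g₀_val : (g₀ : Mat) = toC gq := rfl

theorem g₀_inv : ((g₀⁻¹ : GL5) : Mat) = toC gq⁻¹ := rfl

theorem g₀_mem : g₀ ∈ SO Jm := by
  constructor
  · rw [g₀_val, ← toC_transpose, ← toC_mul, ← toC_mul, gq_iso]
  · rw [g₀_val]
    have : (toC gq).det = ((gq.det : ℚ) : ℂ) := by
      unfold toC
      exact ((algebraMap ℚ ℂ).map_det gq).symm
    rw [this, det_gq]
    simp

/-- The point `z`. -/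
noncomputable def zpt : Vec := toC gq *ᵥ o

theorem hodge_zpt (z : ℂ) : hodge Jm zpt z = (g₀ : Mat) * hodge Jm o z * ((g₀⁻¹ : GL5) : Mat) :=
  hodge_smul_mat g₀_mem g₀_val o z

theorem MT_z : MT Jm zpt = cj g₀ Tor := by
  apply le_antisymm
  · refine sInf_le ⟨isQ_cj g₀_val g₀_inv isQ_Tor, ?_, ?_⟩
    · intro g hg
      rw [mem_cj] at hg
      have h1 := (Subgroup.mem_inf.1 hg).1
      have h2 := (SO Jm).mul_mem ((SO Jm).mul_mem g₀_mem h1) ((SO Jm).inv_mem g₀_mem)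
      have h3 : g₀ * (g₀⁻¹ * g * g₀) * g₀⁻¹ = g := by group
      rwa [h3] at h2
    · intro z hz
      refine ⟨g₀ * Tel (lam z hz) 1 * g₀⁻¹, ?_, ?_⟩
      · rw [mem_cj]
        have h3 : g₀⁻¹ * (g₀ * Tel (lam z hz) 1 * g₀⁻¹) * g₀ = Tel (lam z hz) 1 := by group
        rw [h3]
        exact mem_Tor.2 ⟨_, _, rfl⟩
      · rw [hodge_zpt, hodge_o z hz, Units.val_mul, Units.val_mul]
  · refine le_sInf fun H hH => ?_
    have h1 : Tor ≤ cj g₀⁻¹ H := by
      refine Tor_le (isQ_cj (M := gq⁻¹) (M' := gq) g₀_inv (by rw [inv_inv]; rfl) hH.1) ?_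
      intro z hz
      obtain ⟨g, hg, hg'⟩ := hH.2.2 z hz
      refine ⟨g₀⁻¹ * g * g₀, ?_, ?_⟩
      · rw [mem_cj]
        have h3 : g₀⁻¹⁻¹ * (g₀⁻¹ * g * g₀) * g₀⁻¹ = g := by group
        rwa [h3]
      · rw [Units.val_mul, Units.val_mul, hg', hodge_zpt]
        have h2 : ((g₀⁻¹ : GL5) : Mat) * (g₀ : Mat) = 1 := by
          rw [← Units.val_mul, inv_mul_cancel, Units.val_one]
        calc ((g₀⁻¹ : GL5) : Mat) * ((g₀ : Mat) * hodge Jm o z * ((g₀⁻¹ : GL5) : Mat)) * (g₀ : Mat)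
            = (((g₀⁻¹ : GL5) : Mat) * (g₀ : Mat)) * hodge Jm o z *
              (((g₀⁻¹ : GL5) : Mat) * (g₀ : Mat)) := by simp only [Matrix.mul_assoc]
          _ = _ := by rw [h2]; simp
    intro g hg
    rw [mem_cj] at hg
    have h4 := h1 hg
    rw [mem_cj] at h4
    have h5 : g₀⁻¹⁻¹ * (g₀⁻¹ * g * g₀) * g₀⁻¹ = g := by group
    rwa [h5] at h4

theorem isTorus_MT_z : IsTorus (MT Jm zpt) := by
  rw [MT_z]
  exact isTorus_cj isTorus_Tor

end Pool.Agent.H320R4.HS
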