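import Pool.Agent.H320R4.HS.Main
import Pool.Agent.H320R4.HS.Special

/-!
# The Harish-Chandra coordinate of `z` and the path from `o` to `z`
-/

set_option autoImplicit false

namespace Pool.Agent.H320R4.HS

open Matrix

/-- `2 cos(2 π / 5)` -/
noncomputable def w : ℝ := 2 * ζ.re

theorem w_eq : (w : ℂ) = ζ + ζ ^ 4 := by
  have h1 : ζ ^ 4 = star ζ := by
    rw [star_ζ]
    exact eq_inv_of_mul_eq_one_left (by rw [← pow_succ, ζ5])
  rw [h1, w]
  exact (Complex.add_conj ζ).symm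

theorem w_sq : w ^ 2 + w = 1 := by
  have h : ((w ^ 2 + w : ℝ) : ℂ) = ((1 : ℝ) : ℂ) := by
    push_cast
    rw [w_eq]
    linear_combination ζΦ + (2 + ζ ^ 3) * ζ5
  exact_mod_cast h

theorem w_pos : 0 < w := by
  have h : ζ.re = Real.cos (2 * Real.pi / 5) := by
    have : ζ = Complex.exp (((2 * Real.pi / 5 : ℝ) : ℂ) * Complex.I) := by
      unfold ζ
      congr 1
      push_cast
      ring
    rw [this, Complex.exp_ofReal_mul_I_re]
  rw [w, h]
  have := Real.cos_pos_of_mem_Ioo (x := 2 * Real.pi / 5)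
    ⟨by linarith [Real.pi_pos], by linarith [Real.pi_pos]⟩
  linarith

theorem w_lo : 0.6 < w := by
  have h1 := w_sq
  have h2 := w_pos
  by_contra h
  nlinarith

theorem w_hi : w < 0.62 := by
  have h1 := w_sq
  have h2 := w_pos
  by_contra h
  nlinarith

theorem q0_eq : q 0 = 8 := by
  simp [q, e]
  norm_num

theorem q1_eq : q 1 = ((-1 - 3 * w : ℝ) : ℂ) := by
  have h1 : e (2 * 1) = ζ ^ 2 := rfl
  have h2 : e (3 * 1) = ζ ^ 3 := rfl
  rw [q, h1, h2]
  push_cast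
  rw [w_eq]
  linear_combination 3 * ζΦ

theorem q2_eq : q 2 = ((2 + 3 * w : ℝ) : ℂ) := by
  have h1 : e (2 * 2) = ζ ^ 4 := rfl
  have h2 : e (3 * 2) = ζ ^ 1 := rfl
  rw [q, h1, h2]
  push_cast
  rw [w_eq]
  ring

theorem form_F (x y : Vec) : form Jm (F *ᵥ x) (F *ᵥ y) = x ⬝ᵥ (Am *ᵥ y) := by
  unfold form
  rw [← FtJF, mulVec_mulVec]
  simp only [dotProduct_mulVec, vecMul_mulVec, ← Matrix.mul_assoc]

theorem star_F (x : Vec) : star (F *ᵥ x) = F *ᵥ (fun k => star (x (-k))) := by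
  funext j
  simp only [Pi.star_apply, mulVec, dotProduct, star_sum, star_mul']
  have h1 : ∀ j k : Fin 5, -(j * k) = j * -k := by decide
  have h : ∀ k, star (F j k) * star (x k) = F j (-k) * star (x (-(-k))) := by
    intro k
    rw [neg_neg]
    simp only [F, of_apply]
    rw [star_e, h1]
  simp only [h]
  exact Equiv.sum_comp (Equiv.neg (Fin 5)) (fun k => F j k * star (x (-k)))

/-- The Fourier coordinates on the path. -/
noncomputable def xs (s : ℝ) : Fin 5 → ℝ :=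
  ![(1 - s + s * ((8 + 2 * w) / 5)) * s / 2, 1 - s + s * ((8 + 2 * w) / 5), 0,
    -((1 - s + s * ((8 + 2 * w) / 5)) * s * w / 2),
    (1 - s + s * ((8 + 2 * w) / 5)) * (s * s) * ((2 + 3 * w) / 11)]

/-- The path. -/
noncomputable def γ (s : ℝ) : Vec := F *ᵥ (fun k => ((xs s k : ℝ) : ℂ))

theorem γ_zero : γ 0 = o := by
  funext j
  simp [γ, xs, mulVec, dotProduct, Fin.sum_univ_five, F_one]

theorem γ_one : γ 1 = zpt := by
  have hw := w_eq
  have h := ζΦ
  funext j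
  simp only [γ, xs, mulVec, dotProduct, Fin.sum_univ_five, zpt, o, F, of_apply, toC, map_apply, gq]
  fin_cases j <;> simp [e, Fin.mul_def, hw] <;> grind

theorem γ_cont : Continuous γ := by
  refine continuous_pi fun j => ?_
  simp only [γ, mulVec, dotProduct, Fin.sum_univ_five, xs]
  simp
  fun_prop

theorem r_pos {s : ℝ} (h0 : 0 ≤ s) : 0 < 1 - s + s * ((8 + 2 * w) / 5) := by
  have := w_pos
  have h1 : 1 - s + s * ((8 + 2 * w) / 5) = 1 + s * ((3 + 2 * w) / 5) := by ring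
  rw [h1]
  positivity

theorem γ_form (s : ℝ) : form Jm (γ s) (γ s) = 0 := by
  unfold γ
  rw [form_F, Am_eq]
  simp [mulVec, dotProduct, Fin.sum_univ_five, xs]
  rw [q0_eq, q1_eq]
  have h := w_sq
  have h' : (w : ℂ) ^ 2 + w = 1 := by exact_mod_cast h
  push_cast
  generalize ((1 : ℂ) - s + s * ((8 + 2 * w) / 5)) = r
  linear_combination (-(30 * 3 / 11) * r ^ 2 * (s : ℂ) ^ 2) * h'

theorem γ_neg {s : ℝ} (h0 : 0 ≤ s) (h1 : s ≤ 1) : (form Jm (γ s) (star (γ s))).re < 0 := by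
  have hs : star (γ s) = F *ᵥ (fun k => ((xs s (-k) : ℝ) : ℂ)) := by
    unfold γ
    rw [star_F]
    congr 1
    funext k
    exact Complex.conj_ofReal _
  have hr := r_pos h0
  have key : ∀ r : ℝ, 0 < r →
      8 * (r * s / 2) ^ 2 + (-1 - 3 * w) * (r ^ 2 + (r * (s * s) * ((2 + 3 * w) / 11)) ^ 2) +
        (2 + 3 * w) * (r * s * w / 2) ^ 2 < 0 := by
    intro r hr
    have hw1 := w_lo
    have hw2 := w_hi
    have hw := w_sq
    have e1 : 8 * (r * s / 2) ^ 2 + (-1 - 3 * w) * (r ^ 2 + (r * (s * s) * ((2 + 3 * w) / 11)) ^ 2) +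
        (2 + 3 * w) * (r * s * w / 2) ^ 2 =
        r ^ 2 * (2 * s ^ 2 - (1 + 3 * w) - (2 + 3 * w) * (s ^ 2) ^ 2 / 11 + (w - 1 / 4) * s ^ 2) := by
      have e2 : (1 + 3 * w) * ((2 + 3 * w) / 11) ^ 2 = (2 + 3 * w) / 11 := by
        linear_combination ((2 + 3 * w) * 9 / 121) * hw
      have e3 : (2 + 3 * w) * w ^ 2 / 4 = w - 1 / 4 := by
        linear_combination ((3 * w - 1) / 4) * hw
      linear_combination (-(r ^ 2 * (s ^ 2) ^ 2)) * e2 + r ^ 2 * s ^ 2 * e3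
    rw [e1]
    refine mul_neg_of_pos_of_neg (by positivity) ?_
    have ht0 : 0 ≤ s ^ 2 := by positivity
    have ht1 : s ^ 2 ≤ 1 := by nlinarith
    generalize s ^ 2 = t at ht0 ht1
    nlinarith [mul_nonneg ht0 (sub_nonneg.2 ht1), mul_nonneg (sub_nonneg.2 ht1) w_pos.le]
  have h2 := key _ hr
  have h3 : form Jm (γ s) (star (γ s)) = ((5 * (8 * ((1 - s + s * ((8 + 2 * w) / 5)) * s / 2) ^ 2 +
      (-1 - 3 * w) * ((1 - s + s * ((8 + 2 * w) / 5)) ^ 2 +
        ((1 - s + s * ((8 + 2 * w) / 5)) * (s * s) * ((2 + 3 * w) / 11)) ^ 2) +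
        (2 + 3 * w) * ((1 - s + s * ((8 + 2 * w) / 5)) * s * w / 2) ^ 2) : ℝ) : ℂ) := by
    rw [hs]
    unfold γ
    rw [form_F, Am_eq, q0_eq, q1_eq, q2_eq]
    have n0 : (-0 : Fin 5) = 0 := by decide
    have n1 : (-1 : Fin 5) = 4 := by decide
    have n2 : (-2 : Fin 5) = 3 := by decide
    have n3 : (-3 : Fin 5) = 2 := by decide
    have n4 : (-4 : Fin 5) = 1 := by decide
    simp only [mulVec, dotProduct, Fin.sum_univ_five, n0, n1, n2, n3, n4]
    simp [xs]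
    ring
  rw [h3, Complex.ofReal_re]
  linarith

theorem joined : JoinedIn (cone Jm) o zpt := by
  refine JoinedIn.ofLine (f := γ) γ_cont.continuousOn γ_zero γ_one ?_
  rintro _ ⟨s, hs, rfl⟩
  exact ⟨γ_form s, γ_neg hs.1 hs.2⟩

theorem hc : IsHarishChandra Jm o zpt (Yo (1 / 2) 0 (-(w / 2))) := by
  have hw : (w : ℂ) ^ 2 + w = 1 := by exact_mod_cast w_sq
  have hκ : ((8 + 2 * w) / 5 : ℂ) ≠ 0 := by
    intro h
    have h1 : (44 : ℂ) = 0 := by linear_combination (5 * (6 - 2 * w)) * h + 4 * hw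
    norm_num at h1
  refine ⟨Yo_mem _ _ _, ((8 + 2 * w) / 5 : ℂ)⁻¹, inv_ne_zero hκ, ?_⟩
  rw [eq_inv_smul_iff₀ hκ, exp_Yo, EG_val, ← γ_one, ← γ_zero]
  unfold γ
  rw [mulVec_mulVec, Matrix.mul_assoc, Fi_mul_F, Matrix.mul_one, ← mulVec_mulVec, ← mulVec_smul]
  congr 1
  have hq := q_ne 1
  have h1 : q 0 / q 1 = -(8 * (2 + 3 * w) / 11) := by
    rw [div_eq_iff hq, q0_eq, q1_eq]
    push_cast
    linear_combination (-(72 / 11)) * hw
  funext k
  rw [Pi.smul_apply, smul_eq_mul]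
  simp only [mulVec, dotProduct, Fin.sum_univ_five]
  fin_cases k <;> simp [Em, xs, h1] <;> ring

end Pool.Agent.H320R4.HS
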