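import Pool.Agent.H320R4.HS.Torus

/-!
# The Mumford-Tate group of `o`
-/

set_option autoImplicit false

namespace Pool.Agent.H320R4.HS

open Matrix
open scoped Polynomial

theorem q_ne (k : Fin 5) : q k ≠ 0 := by
  intro hk
  have hdet : Am.det ≠ 0 := by
    rw [← FtJF, det_mul, det_mul]
    have hJ : (toC Jm).det ≠ 0 := by
      have : (toC Jm).det = ((Jm.det : ℚ) : ℂ) := by
        unfold toC
        exact ((algebraMap ℚ ℂ).map_det Jm).symm
      rw [this]
      have h968 : Jm.det = 968 := by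
        simp [Jm, det_succ_row_zero, Fin.sum_univ_succ, Fin.succAbove]
        norm_num
      rw [h968]
      norm_num
    have hF : F.det ≠ 0 := by
      intro h0
      have := congrArg Matrix.det F_mul_Fi
      rw [det_mul, h0, zero_mul, det_one] at this
      exact zero_ne_one this
    have hF' : Fᵀ.det ≠ 0 := by rwa [det_transpose]
    exact mul_ne_zero (mul_ne_zero hF' hJ) hF
  apply hdet
  refine det_eq_zero_of_column_eq_zero k fun j => ?_
  simp only [Am, of_apply]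
  rw [hk]
  simp

/-- `z / z̄` as a unit. -/
noncomputable def lam (z : ℂ) (hz : z ≠ 0) : ℂˣ := Units.mk0 (z / star z) (div_ne_zero hz (star_ne_zero.2 hz))

theorem hodge_o (z : ℂ) (hz : z ≠ 0) : hodge Jm o z = (Tel (lam z hz) 1 : Mat) := by
  rw [Tel_val]
  ext i j
  have hq := q_ne 1
  have hs : star z ≠ 0 := star_ne_zero.2 hz
  have h1 : o i * star o j = e ((i - j) * 1) := by
    rw [star_o]
    simp only [o]
    rw [← e_add, mul_one, sub_eq_add_neg]
  have h4 : star o i * o j = e ((i - j) * 4) := by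
    rw [star_o]
    simp only [o]
    have hd : ∀ i j : Fin 5, -i + j = (i - j) * 4 := by decide
    rw [← e_add, hd]
  have h5 : (1 : Mat) i j = ∑ k, (1 / 5) * e ((i - j) * k) := by
    rw [← Dm_one, Dm_apply]
    simp
  simp only [hodge, Matrix.add_apply, Matrix.smul_apply, smul_eq_mul, vecMulVec_apply]
  rw [J_star_o, J_o, form_o_star, Dm_apply, h5]
  have e1 : o i * (q 1 * star o j) = q 1 * e ((i - j) * 1) := by rw [← h1]; ring
  have e4 : star o i * (q 1 * o j) = q 1 * e ((i - j) * 4) := by rw [← h4]; ring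
  rw [e1, e4]
  simp only [Fin.sum_univ_five, lam]
  simp
  field_simp
  ring

/-- The coefficient matrices. -/
noncomputable def Ek (k : Fin 5) : Mat := Matrix.of fun i j => (1 / 5) * e ((i - j) * k)

theorem Dm_fam (a : Fin 5 → ℤ) (x : ℂˣ) : Dm (fun k => ((x ^ a k : ℂˣ) : ℂ)) = fam Ek a x := by
  ext i j
  rw [Dm_apply]
  simp only [fam, Matrix.sum_apply, Matrix.smul_apply, smul_eq_mul, Ek, of_apply]
  exact Finset.sum_congr rfl fun k _ => by ring

theorem Tel_fam1 (x : ℂˣ) : (Tel x 1 : Mat) = fam Ek ![0, 1, 0, 0, -1] x := by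
  rw [← Dm_fam, Tel_val]
  congr 1
  funext k
  fin_cases k <;> simp

theorem Tel_fam2 (x : ℂˣ) : (Tel 1 x : Mat) = fam Ek ![0, 0, 1, -1, 0] x := by
  rw [← Dm_fam, Tel_val]
  congr 1
  funext k
  fin_cases k <;> simp

theorem e_pow (u a : Fin 5) : (e u) ^ a.val = e (u * a) := by
  unfold e
  rw [← pow_mul, pow_eq_pow_mod _ ζ5]
  rfl

theorem ζ_pow (a : Fin 5) : ζ ^ a.val = e a := rfl

/-- The matrix over `ℚ[X]` for the Galois conjugation. -/
noncomputable def Mpol (d : Fin 5 → ℚ) : Matrix (Fin 5) (Fin 5) ℚ[X] :=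
  Matrix.of fun i j => ∑ k, Polynomial.C ((1 / 5) * d k) * Polynomial.X ^ ((i - j) * k).val

theorem Mpol_ζ (d : Fin 5 → ℚ) : (Mpol d).map (Polynomial.aeval ζ) = Dm fun k => (d k : ℂ) := by
  ext i j
  rw [Dm_apply]
  simp only [Mpol, map_apply, of_apply, map_sum, map_mul, Polynomial.aeval_C, map_pow,
    Polynomial.aeval_X, ζ_pow]
  refine Finset.sum_congr rfl fun k _ => ?_
  simp
  ring

theorem Mpol_e2 (r : ℚ) : (Mpol ![1, r, 1, 1, r⁻¹]).map (Polynomial.aeval (e 2)) =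
    Dm ![1, 1, (r : ℂ), (r : ℂ)⁻¹, 1] := by
  ext i j
  rw [Dm_apply]
  simp only [Mpol, map_apply, of_apply, map_sum, map_mul, Polynomial.aeval_C, map_pow,
    Polynomial.aeval_X, e_pow]
  simp only [Fin.sum_univ_five]
  have h0 : ∀ m : Fin 5, 2 * (m * 0) = m * 0 := by decide
  have h1 : ∀ m : Fin 5, 2 * (m * 1) = m * 2 := by decide
  have h2 : ∀ m : Fin 5, 2 * (m * 2) = m * 4 := by decide
  have h3 : ∀ m : Fin 5, 2 * (m * 3) = m * 1 := by decide
  have h4 : ∀ m : Fin 5, 2 * (m * 4) = m * 3 := by decide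
  rw [h0, h1, h2, h3, h4]
  simp
  ring

theorem Tor_le {H : Subgroup GL5} (hH : IsQSubgroup H) (hh : HodgeIn Jm o H) : Tor ≤ H := by
  have s1 : ∀ x : ℂˣ, Tel x 1 ∈ H := by
    refine mem_of_infinite hH Ek _ (fun x => Tel x 1) Tel_fam1 _ infinite_circle ?_
    rintro x ⟨z, hz, hx⟩
    obtain ⟨g, hg, hg'⟩ := hh z hz
    have : g = Tel x 1 := by
      apply Units.ext
      rw [hg', hodge_o z hz]
      have h1 : lam z hz = x := by
        apply Units.ext
        rw [hx]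
        rfl
      rw [h1]
    rw [← this]
    exact hg
  have s2 : ∀ x : ℂˣ, Tel 1 x ∈ H := by
    refine mem_of_infinite hH Ek _ (fun x => Tel 1 x) Tel_fam2 _ infinite_rat ?_
    rintro x ⟨r, hr, hx⟩
    refine mem_of_galois hH (Mpol ![1, r, 1, 1, r⁻¹]) 2 (by decide) (Tel x 1) (Tel 1 x) ?_ ?_ (s1 x)
    · rw [Mpol_ζ, Tel_val]
      congr 1
      funext k
      fin_cases k <;> simp [hx]
    · rw [Mpol_e2, Tel_val]
      congr 1
      funext k
      fin_cases k <;> simp [hx]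
  intro g hg
  obtain ⟨x, y, rfl⟩ := mem_Tor.1 hg
  have : Tel x y = Tel x 1 * Tel 1 y := by rw [Tel_mul, mul_one, one_mul]
  rw [this]
  exact H.mul_mem (s1 x) (s2 y)

theorem hodgeIn_Tor : HodgeIn Jm o Tor := fun z hz =>
  ⟨Tel (lam z hz) 1, mem_Tor.2 ⟨_, _, rfl⟩, (hodge_o z hz).symm⟩

/-- The generic matrix. -/
noncomputable def XM : Matrix (Fin 5) (Fin 5) (MvPolynomial (Fin 5 × Fin 5) ℚ) :=
  Matrix.of fun i j => MvPolynomial.X (i, j)

/-- A rational matrix as a matrix of constant polynomials. -/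
noncomputable def cM (M : Matrix (Fin 5) (Fin 5) ℚ) :
    Matrix (Fin 5) (Fin 5) (MvPolynomial (Fin 5 × Fin 5) ℚ) := M.map MvPolynomial.C

/-- Evaluation at `g`. -/
noncomputable def evG (g : Mat) : MvPolynomial (Fin 5 × Fin 5) ℚ →+* ℂ :=
  (MvPolynomial.aeval (fun ij : Fin 5 × Fin 5 => g ij.1 ij.2)).toRingHom

theorem evG_apply (g : Mat) (p : MvPolynomial (Fin 5 × Fin 5) ℚ) :
    MvPolynomial.aeval (fun ij : Fin 5 × Fin 5 => g ij.1 ij.2) p = evG g p := rfl

theorem evG_X (g : Mat) : (evG g).mapMatrix XM = g := by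
  ext i j
  simp [evG, XM]

theorem evG_XT (g : Mat) : (evG g).mapMatrix XMᵀ = gᵀ := by
  ext i j
  simp [evG, XM]

theorem evG_c (g : Mat) (M : Matrix (Fin 5) (Fin 5) ℚ) : (evG g).mapMatrix (cM M) = toC M := by
  ext i j
  simp [evG, cM, toC]

theorem isQ_Tor : IsQSubgroup Tor := by
  refine ⟨{p | ∃ i j, p = (XMᵀ * cM Jm * XM - cM Jm) i j} ∪
    {p | ∃ i j, p = (XM * cM Sq - cM Sq * XM) i j} ∪ {XM.det - 1}, fun g => ?_⟩
  have h1 : ∀ i j, evG g ((XMᵀ * cM Jm * XM - cM Jm) i j) =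
      ((g : Mat)ᵀ * toC Jm * (g : Mat) - toC Jm) i j := by
    intro i j
    have : (evG g).mapMatrix (XMᵀ * cM Jm * XM - cM Jm) =
        (g : Mat)ᵀ * toC Jm * (g : Mat) - toC Jm := by
      rw [map_sub, map_mul, map_mul, evG_X, evG_XT, evG_c]
    rw [← this]
    rfl
  have h2 : ∀ i j, evG g ((XM * cM Sq - cM Sq * XM) i j) =
      ((g : Mat) * toC Sq - toC Sq * (g : Mat)) i j := by
    intro i j
    have : (evG g).mapMatrix (XM * cM Sq - cM Sq * XM) =
        (g : Mat) * toC Sq - toC Sq * (g : Mat) := by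
      rw [map_sub, map_mul, map_mul, evG_X, evG_c]
    rw [← this]
    rfl
  have h3 : evG g (XM.det - 1) = (g : Mat).det - 1 := by
    rw [map_sub, map_one, RingHom.map_det, evG_X]
  constructor
  · intro hg p hp
    obtain ⟨⟨a, b⟩, c⟩ := Subgroup.mem_inf.1 hg
    rw [Subgroup.mem_centralizer_singleton_iff] at c
    have c' : (g : Mat) * toC Sq = toC Sq * (g : Mat) := by
      have := congrArg Units.val c
      rwa [Units.val_mul, Units.val_mul, Tel_shift] at this
    rw [evG_apply]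
    rcases hp with (⟨i, j, rfl⟩ | ⟨i, j, rfl⟩) | hp
    · rw [h1, a]
      simp
    · rw [h2, c']
      simp
    · rw [Set.mem_singleton_iff.1 hp, h3, b]
      simp
  · intro h
    refine Subgroup.mem_inf.2 ⟨⟨?_, ?_⟩, ?_⟩
    · ext i j
      have := h _ (Or.inl (Or.inl ⟨i, j, rfl⟩))
      rw [evG_apply, h1, Matrix.sub_apply] at this
      exact sub_eq_zero.1 this
    · have := h _ (Or.inr rfl)
      rw [evG_apply, h3] at this
      exact sub_eq_zero.1 this
    · rw [Subgroup.mem_centralizer_singleton_iff]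
      apply Units.ext
      rw [Units.val_mul, Units.val_mul, Tel_shift]
      ext i j
      have := h _ (Or.inl (Or.inr ⟨i, j, rfl⟩))
      rw [evG_apply, h2, Matrix.sub_apply] at this
      exact sub_eq_zero.1 this

theorem MT_o : MT Jm o = Tor := by
  apply le_antisymm
  · exact sInf_le ⟨isQ_Tor, inf_le_left, hodgeIn_Tor⟩
  · refine le_sInf fun H hH => Tor_le hH.1 hH.2.2

theorem isTorus_Tor : IsTorus Tor := by
  refine ⟨2, FG, ![![0, 0], ![1, 0], ![0, 1], ![0, -1], ![-1, 0]], fun g => ?_⟩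
  have key : ∀ t : Fin 2 → ℂˣ, (Tel (t 0) (t 1) : Mat) = (FG : Mat) *
      diagonal (fun i => ∏ j, ((t j : ℂ) ^ (![![0, 0], ![1, 0], ![0, 1], ![0, -1], ![-1, 0]] :
        Fin 5 → Fin 2 → ℤ) i j)) * ((FG⁻¹ : GL5) : Mat) := by
    intro t
    rw [Tel_val, FG_val, FG_inv]
    unfold Dm
    congr 3
    funext k
    fin_cases k <;> simp [Fin.prod_univ_two]
  rw [mem_Tor]
  constructor
  · rintro ⟨x, y, rfl⟩
    exact ⟨![x, y], by simpa using key ![x, y]⟩
  · rintro ⟨t, ht⟩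
    exact ⟨t 0, t 1, Units.ext (by rw [ht, key t])⟩

theorem torus_comm {T : Subgroup GL5} (hT : IsTorus T) {g h : GL5} (hg : g ∈ T) (hh : h ∈ T) :
    g * h = h * g := by
  obtain ⟨n, P, A, hA⟩ := hT
  obtain ⟨t, ht⟩ := (hA g).1 hg
  obtain ⟨s, hs⟩ := (hA h).1 hh
  apply Units.ext
  rw [Units.val_mul, Units.val_mul, ht, hs]
  have hP : ((P⁻¹ : GL5) : Mat) * (P : Mat) = 1 := by
    rw [← Units.val_mul, inv_mul_cancel, Units.val_one]
  have aux : ∀ D D' : Mat, (P : Mat) * D * ((P⁻¹ : GL5) : Mat) * ((P : Mat) * D' * ((P⁻¹ : GL5) : Mat))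
      = (P : Mat) * (D * D') * ((P⁻¹ : GL5) : Mat) := by
    intro D D'
    calc (P : Mat) * D * ((P⁻¹ : GL5) : Mat) * ((P : Mat) * D' * ((P⁻¹ : GL5) : Mat))
        = (P : Mat) * D * (((P⁻¹ : GL5) : Mat) * (P : Mat)) * D' * ((P⁻¹ : GL5) : Mat) := by
          simp only [Matrix.mul_assoc]
      _ = _ := by rw [hP]; simp only [Matrix.mul_one, Matrix.mul_assoc]
  rw [aux, aux, diagonal_mul_diagonal, diagonal_mul_diagonal]
  congr 3
  funext i
  exact mul_comm _ _

theorem isMaximalTorus_MT_o : IsMaximalTorus (SO Jm) (MT Jm o) := by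
  rw [MT_o]
  refine ⟨isTorus_Tor, inf_le_left, fun T' hT' hle hT => ?_⟩
  intro g hg
  refine Subgroup.mem_inf.2 ⟨hle hg, ?_⟩
  rw [Subgroup.mem_centralizer_singleton_iff]
  exact torus_comm hT' hg (hT (mem_Tor.2 ⟨_, _, rfl⟩))

end Pool.Agent.H320R4.HS
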