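import Pool.Agent.H320R4.HS.Exp

/-!
# The groups whose orbit at `o` is tangent to the plane
-/

set_option autoImplicit false

namespace Pool.Agent.H320R4.HS

open Matrix
open scoped Polynomial

theorem Yo_inj {a b c a' b' c' : ℂ} (h : Yo a b c = Yo a' b' c') : a = a' ∧ b = b' ∧ c = c' := by
  have h1 : Ny a b c = Ny a' b' c' := by
    have h2 : ∀ a b c, Fi * Yo a b c * F = Ny a b c := by
      intro a b c
      unfold Yo
      calc Fi * (F * Ny a b c * Fi) * F = (Fi * F) * Ny a b c * (Fi * F) := by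
            simp only [Matrix.mul_assoc]
        _ = _ := by rw [Fi_mul_F]; simp
    rw [← h2, ← h2 a', h]
  refine ⟨?_, ?_, ?_⟩
  · simpa [Ny] using congrFun (congrFun h1 0) 1
  · simpa [Ny] using congrFun (congrFun h1 2) 1
  · simpa [Ny] using congrFun (congrFun h1 3) 1

/-- The plane. -/
noncomputable def Vp : Submodule ℂ Mat := Submodule.span ℂ {Yo 1 0 0, Yo 0 0 1}

theorem mem_Vp {Y : Mat} : Y ∈ Vp ↔ ∃ a c, Y = Yo a 0 c := by
  unfold Vp
  rw [Submodule.mem_span_pair]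
  constructor
  · rintro ⟨a, c, rfl⟩
    exact ⟨a, c, by rw [Yo_lin]; simp⟩
  · rintro ⟨a, c, rfl⟩
    exact ⟨a, c, by rw [Yo_lin]; simp⟩

theorem mem_tangentOf {H : Subgroup GL5} {a b c : ℂ} :
    Yo a b c ∈ tangentOf Jm o H ↔ ∀ s : ℂ, EG (s * a) (s * b) (s * c) ∈ H := by
  constructor
  · rintro ⟨-, h⟩ s
    obtain ⟨g, hg, hg'⟩ := h s
    rw [exp_smul_Yo] at hg'
    rw [← Units.ext hg']
    exact hg
  · intro h
    exact ⟨Yo_mem a b c, fun s => ⟨_, h s, (exp_smul_Yo s a b c).symm⟩⟩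

theorem FNF_apply (N : Mat) (i j : Fin 5) :
    (F * N * Fi) i j = ∑ k, ∑ l, (1 / 5) * (N k l * e (i * k - j * l)) := by
  rw [mul_apply, Finset.sum_comm]
  refine Finset.sum_congr rfl fun l _ => ?_
  rw [mul_apply, Finset.sum_mul]
  refine Finset.sum_congr rfl fun k _ => ?_
  simp only [F, Fi, of_apply]
  rw [sub_eq_add_neg, e_add]
  ring

/-- The eigenvalues as polynomials. -/
noncomputable def qp (k : Fin 5) : ℚ[X] :=
  2 + 3 * Polynomial.X ^ (2 * k).val + 3 * Polynomial.X ^ (3 * k).val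

theorem qp_ζ (k : Fin 5) : Polynomial.aeval ζ (qp k) = q k := by
  simp only [qp, q, map_add, map_mul, map_pow, Polynomial.aeval_X, ζ_pow, map_ofNat]

theorem qp_3 (k : Fin 5) : Polynomial.aeval (e 3) (qp k) = q (3 * k) := by
  have h1 : ∀ k : Fin 5, 3 * (2 * k) = 2 * (3 * k) := by decide
  simp only [qp, q, map_add, map_mul, map_pow, Polynomial.aeval_X, e_pow, h1, map_ofNat]

/-- The matrix for the Galois conjugation of `EG 0 0 (s * q 1)`. -/
noncomputable def Mc (s : ℚ) : Matrix (Fin 5) (Fin 5) ℚ[X] :=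
  Matrix.of fun i j => (if i = j then 1 else 0) +
    Polynomial.C (s / 5) * (qp 1 * Polynomial.X ^ (i * 3 - j * 1).val -
      qp 2 * Polynomial.X ^ (i * 4 - j * 2).val)

theorem EG_one_add (a b c : ℂ) :
    (EG a b c : Mat) = 1 + F * (Em a b c - 1) * Fi := by
  rw [EG_val, Matrix.mul_sub, Matrix.sub_mul, Matrix.mul_one, F_mul_Fi]
  abel

theorem Mc_ζ (s : ℚ) : (Mc s).map (Polynomial.aeval ζ) = (EG 0 0 (s * q 1) : Mat) := by
  rw [EG_one_add]
  ext i j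
  rw [Matrix.add_apply, FNF_apply]
  simp only [Mc, map_apply, of_apply, map_add, map_mul, map_sub, Polynomial.aeval_C, map_pow,
    Polynomial.aeval_X, ζ_pow, qp_ζ]
  have h1 : (1 : Mat) i j = Polynomial.aeval ζ (if i = j then (1 : ℚ[X]) else 0) := by
    rw [one_apply]
    split_ifs <;> simp
  rw [← h1]
  congr 1
  have hq := q_ne 1
  simp only [Fin.sum_univ_five, Matrix.sub_apply]
  simp [Em]
  field_simp
  ring

theorem Mc_3 (s : ℚ) : (Mc s).map (Polynomial.aeval (e 3)) = (EG 0 (-(s * q 1)) 0 : Mat) := by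
  rw [EG_one_add]
  ext i j
  rw [Matrix.add_apply, FNF_apply]
  simp only [Mc, map_apply, of_apply, map_add, map_mul, map_sub, Polynomial.aeval_C, map_pow,
    Polynomial.aeval_X, e_pow, qp_3]
  have h1 : (1 : Mat) i j = Polynomial.aeval (e 3) (if i = j then (1 : ℚ[X]) else 0) := by
    rw [one_apply]
    split_ifs <;> simp
  rw [← h1]
  congr 1
  have hq := q_ne 1
  have g1 : ∀ i j : Fin 5, 3 * (i * 3 - j * 1) = i * 4 - j * 3 := by decide
  have g2 : ∀ i j : Fin 5, 3 * (i * 4 - j * 2) = i * 2 - j * 1 := by decide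
  have g3 : q (3 * 1) = q 2 := q3
  have g4 : q (3 * 2) = q 1 := rfl
  rw [g1, g2, g3, g4]
  simp only [Fin.sum_univ_five, Matrix.sub_apply]
  simp [Em]
  field_simp
  ring

theorem EG_b (b : ℂ) : (EG 0 b 0 : Mat) = 1 + Yo 0 b 0 := by
  rw [EG_one_add]
  unfold Yo
  congr 3
  ext i j
  rw [Matrix.sub_apply]
  fin_cases i <;> fin_cases j <;> simp [Em, Ny]

theorem EG_b_fam (b : ℂ) (x : ℂˣ) :
    (EG 0 (x * b) 0 : Mat) = fam ![1, Yo 0 b 0] ![0, 1] x := by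
  rw [EG_b]
  have h : Yo 0 (x * b) 0 = (x : ℂ) • Yo 0 b 0 := by rw [Yo_smul]; simp
  rw [h]
  simp [fam, Fin.sum_univ_two]

theorem b_of_c {H : Subgroup GL5} (hH : IsQSubgroup H) (h : ∀ s, EG 0 0 s ∈ H) (s : ℂ) :
    EG 0 s 0 ∈ H := by
  have hq := q_ne 1
  have h1 : ∀ x : ℂˣ, EG 0 (x * -q 1) 0 ∈ H := by
    refine mem_of_infinite hH _ _ (fun x : ℂˣ => EG 0 (x * -q 1) 0) (EG_b_fam (-q 1)) _
      infinite_rat ?_
    rintro x ⟨r, hr, hx⟩
    refine mem_of_galois hH (Mc r) 3 (by decide) (EG 0 0 (r * q 1)) _ (Mc_ζ r).symm ?_ (h _)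
    rw [Mc_3, hx]
    congr 2
    ring
  by_cases hs : s = 0
  · rw [hs, EG_zero]
    exact H.one_mem
  · have := h1 (Units.mk0 (s / -q 1) (div_ne_zero hs (neg_ne_zero.2 hq)))
    rw [Units.val_mk0, div_mul_cancel₀ _ (neg_ne_zero.2 hq)] at this
    exact this

/-- The conjugates of the exponentials. -/
noncomputable def Bm (t : ℂ) : Mat :=
  !![1, 0, 0, t * q 2, 0; 0, 1, 0, 0, 0; -(t * q 0), 0, 1, -(t * t / 2 * (q 0 * q 2)), 0;
    0, 0, 0, 1, 0; 0, 0, 0, 0, 1]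

theorem Bm_mul (s t : ℂ) : Bm s * Bm t = Bm (s + t) := by
  ext i j
  rw [Matrix.mul_apply, Fin.sum_univ_five]
  fin_cases i <;> fin_cases j <;> simp [Bm] <;> ring

theorem Bm_zero : Bm 0 = 1 := by
  ext i j
  fin_cases i <;> fin_cases j <;> simp [Bm]

/-- The conjugates of the exponentials as elements of `GL₅(ℂ)`. -/
noncomputable def BG (t : ℂ) : GL5 :=
  ⟨F * Bm t * Fi, F * Bm (-t) * Fi,
    by rw [FNF_mul, Bm_mul]; simp [Bm_zero, F_mul_Fi],
    by rw [FNF_mul, Bm_mul]; simp [Bm_zero, F_mul_Fi]⟩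

theorem BG_val (t : ℂ) : (BG t : Mat) = F * Bm t * Fi := rfl

theorem BG_comm (t : ℂ) :
    EG (q 1) 0 0 * BG t = EG 0 (t * (q 0 * q 1)) 0 * (BG t * EG (q 1) 0 0) := by
  have hq := q_ne 1
  apply Units.ext
  rw [Units.val_mul, Units.val_mul, Units.val_mul, EG_val, EG_val, BG_val, FNF_mul, FNF_mul,
    FNF_mul]
  congr 2
  ext i j
  simp only [Matrix.mul_apply, Fin.sum_univ_five]
  fin_cases i <;> fin_cases j <;> simp [Bm, Em] <;> field_simp <;> ring

theorem BG_fam (x : ℂˣ) : (BG x : Mat) = fam ![1, F * !![0, 0, 0, q 2, 0; 0, 0, 0, 0, 0;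
    -q 0, 0, 0, 0, 0; 0, 0, 0, 0, 0; 0, 0, 0, 0, 0] * Fi, F * !![0, 0, 0, 0, 0; 0, 0, 0, 0, 0;
    0, 0, 0, -(q 0 * q 2 / 2), 0; 0, 0, 0, 0, 0; 0, 0, 0, 0, 0] * Fi] ![0, 1, 2] x := by
  have h : Bm x = 1 + (x : ℂ) • !![0, 0, 0, q 2, 0; 0, 0, 0, 0, 0;
      -q 0, 0, 0, 0, 0; 0, 0, 0, 0, 0; 0, 0, 0, 0, 0] +
      ((x : ℂ) ^ 2) • !![0, 0, 0, 0, 0; 0, 0, 0, 0, 0;
      0, 0, 0, -(q 0 * q 2 / 2), 0; 0, 0, 0, 0, 0; 0, 0, 0, 0, 0] := by
    ext i j
    rw [Matrix.add_apply, Matrix.add_apply, Matrix.smul_apply, Matrix.smul_apply]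
    fin_cases i <;> fin_cases j <;> simp [Bm] <;> ring
  rw [BG_val, h, Matrix.mul_add, Matrix.mul_add, Matrix.add_mul, Matrix.add_mul, Matrix.mul_smul,
    Matrix.smul_mul, Matrix.mul_smul, Matrix.smul_mul, Matrix.mul_one, F_mul_Fi]
  simp only [fam, Fin.sum_univ_three]
  simp

/-- The matrix for the Galois conjugation of `EG (s * q 1) 0 0`. -/
noncomputable def Ma (s : ℚ) : Matrix (Fin 5) (Fin 5) ℚ[X] :=
  Matrix.of fun i j => (if i = j then 1 else 0) +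
    (Polynomial.C (s / 5) * (qp 1 * Polynomial.X ^ (i * 0 - j * 1).val -
      qp 0 * Polynomial.X ^ (i * 4 - j * 0).val) -
    Polynomial.C (s * s / 10) * (qp 0 * qp 1 * Polynomial.X ^ (i * 4 - j * 1).val))

theorem Ma_ζ (s : ℚ) : (Ma s).map (Polynomial.aeval ζ) = (EG (s * q 1) 0 0 : Mat) := by
  rw [EG_one_add]
  ext i j
  rw [Matrix.add_apply, FNF_apply]
  simp only [Ma, map_apply, of_apply, map_add, map_mul, map_sub, Polynomial.aeval_C, map_pow,
    Polynomial.aeval_X, ζ_pow, qp_ζ]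
  have h1 : (1 : Mat) i j = Polynomial.aeval ζ (if i = j then (1 : ℚ[X]) else 0) := by
    rw [one_apply]
    split_ifs <;> simp
  rw [← h1]
  congr 1
  have hq := q_ne 1
  simp only [Fin.sum_univ_five, Matrix.sub_apply]
  simp [Em]
  field_simp
  ring

theorem Ma_3 (s : ℚ) : (Ma s).map (Polynomial.aeval (e 3)) = (BG s : Mat) := by
  have h0 : (BG s : Mat) = 1 + F * (Bm s - 1) * Fi := by
    rw [BG_val, Matrix.mul_sub, Matrix.sub_mul, Matrix.mul_one, F_mul_Fi]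
    abel
  rw [h0]
  ext i j
  rw [Matrix.add_apply, FNF_apply]
  simp only [Ma, map_apply, of_apply, map_add, map_mul, map_sub, Polynomial.aeval_C, map_pow,
    Polynomial.aeval_X, e_pow, qp_3]
  have h1 : (1 : Mat) i j = Polynomial.aeval (e 3) (if i = j then (1 : ℚ[X]) else 0) := by
    rw [one_apply]
    split_ifs <;> simp
  rw [← h1]
  congr 1
  have hq := q_ne 1
  have g1 : ∀ i j : Fin 5, 3 * (i * 0 - j * 1) = i * 0 - j * 3 := by decide
  have g2 : ∀ i j : Fin 5, 3 * (i * 4 - j * 0) = i * 2 - j * 0 := by decide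
  have g5 : ∀ i j : Fin 5, 3 * (i * 4 - j * 1) = i * 2 - j * 3 := by decide
  have g3 : q (3 * 1) = q 2 := q3
  have g4 : q (3 * 0) = q 0 := rfl
  rw [g1, g2, g5, g3, g4]
  simp only [Fin.sum_univ_five, Matrix.sub_apply]
  simp [Bm]
  ring

theorem b_of_a {H : Subgroup GL5} (hH : IsQSubgroup H) (h : ∀ s, EG s 0 0 ∈ H) (s : ℂ) :
    EG 0 s 0 ∈ H := by
  have hq := q_ne 1
  have hq0 := q_ne 0
  have h1 : ∀ x : ℂˣ, BG x ∈ H := by
    refine mem_of_infinite hH _ _ (fun x : ℂˣ => BG x) BG_fam _ infinite_rat ?_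
    rintro x ⟨r, hr, hx⟩
    refine mem_of_galois hH (Ma r) 3 (by decide) (EG (r * q 1) 0 0) _ (Ma_ζ r).symm ?_ (h _)
    rw [Ma_3, hx]
  by_cases hs : s = 0
  · rw [hs, EG_zero]
    exact H.one_mem
  · have hqq : q 0 * q 1 ≠ 0 := mul_ne_zero hq0 hq
    have h2 := h1 (Units.mk0 (s / (q 0 * q 1)) (div_ne_zero hs hqq))
    rw [Units.val_mk0] at h2
    have h3 := BG_comm (s / (q 0 * q 1))
    rw [div_mul_cancel₀ _ hqq] at h3
    rw [eq_mul_inv_iff_mul_eq.2 h3.symm]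
    exact H.mul_mem (H.mul_mem (h _) h2) (H.inv_mem (H.mul_mem h2 (h _)))

theorem tangent_main {H : Subgroup GL5} (hH : IsQSubgroup H) (hh : HodgeIn Jm o H)
    (hV : tangentOf Jm o H ⊆ Vp) : tangentOf Jm o H ⊆ {0} := by
  have hT := Tor_le hH hh
  have nob : ¬ ∀ s, EG 0 s 0 ∈ H := by
    intro h
    have h1 : Yo 0 1 0 ∈ tangentOf Jm o H := by
      rw [mem_tangentOf]
      intro s
      have := h s
      simpa using this
    obtain ⟨a, c, h2⟩ := mem_Vp.1 (hV h1)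
    exact one_ne_zero (Yo_inj h2).2.1
  intro Y hY
  obtain ⟨a, c, rfl⟩ := mem_Vp.1 (hV hY)
  rw [mem_tangentOf] at hY
  simp only [mul_zero] at hY
  have hc : c = 0 := by
    by_contra hc
    apply nob
    apply b_of_c hH
    intro s
    have h2 : (2 : ℂ) ≠ 0 := two_ne_zero
    have h3 := hY (2 * s / c)
    have hs : 2 * s / c * c = 2 * s := div_mul_cancel₀ _ hc
    rw [hs] at h3
    have h4 : Tel 1 (Units.mk0 2 h2) * EG (2 * s / c * a) 0 (2 * s) *
        (Tel 1 (Units.mk0 2 h2))⁻¹ ∈ H :=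
      H.mul_mem (H.mul_mem (hT (mem_Tor.2 ⟨_, _, rfl⟩)) h3) (H.inv_mem (hT (mem_Tor.2 ⟨_, _, rfl⟩)))
    rw [Tel_conj] at h4
    have h5 := H.mul_mem h3 (H.inv_mem h4)
    rw [EG_inv, EG_mul] at h5
    convert h5 using 2
    · simp
    · simp
    · simp
      ring
  subst hc
  have ha : a = 0 := by
    by_contra ha
    apply nob
    apply b_of_a hH
    intro s
    have h3 := hY (s / a)
    rw [div_mul_cancel₀ _ ha, mul_zero] at h3
    exact h3
  subst ha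
  have : Yo 0 0 0 = 0 := by
    have := Yo_smul 0 0 0 0
    simpa using this.symm
  exact this

end Pool.Agent.H320R4.HS
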