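import Pool.Agent.H320R4.HS.Basic

/-!
# Algebraic subgroups over `ℚ`: density and Galois conjugation
-/

set_option autoImplicit false

namespace Pool.Agent.H320R4.HS

open Matrix
open scoped LaurentPolynomial Polynomial

/-- A family of matrices which is a Laurent polynomial in `x`. -/
noncomputable def fam {m : ℕ} (A : Fin m → Mat) (a : Fin m → ℤ) (x : ℂˣ) : Mat :=
  ∑ k, ((x ^ a k : ℂˣ) : ℂ) • A k

theorem laurent_zero (f : ℂ[T;T⁻¹]) (S : Set ℂˣ) (hS : S.Infinite)
    (h : ∀ x ∈ S, LaurentPolynomial.eval₂ (RingHom.id ℂ) x f = 0) : f = 0 := by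
  obtain ⟨n, f', hf⟩ := LaurentPolynomial.exists_T_pow f
  have h1 : f' = 0 := by
    refine Polynomial.eq_zero_of_infinite_isRoot f' ?_
    refine (hS.image (f := fun x : ℂˣ => (x : ℂ)) (fun x _ y _ h => Units.ext h)).mono ?_
    rintro _ ⟨x, hx, rfl⟩
    have h2 := congrArg (LaurentPolynomial.eval₂ (RingHom.id ℂ) x) hf
    rw [map_mul, h x hx, zero_mul, LaurentPolynomial.eval₂_toLaurent] at h2
    simpa [Polynomial.IsRoot, Polynomial.eval₂_id] using h2
  rw [h1, map_zero] at hf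
  have h3 : f * LaurentPolynomial.T n * LaurentPolynomial.T (-n) = 0 := by rw [← hf, zero_mul]
  rw [mul_assoc, ← LaurentPolynomial.T_add] at h3
  simpa using h3

theorem aeval_fam {m : ℕ} (A : Fin m → Mat) (a : Fin m → ℤ)
    (p : MvPolynomial (Fin 5 × Fin 5) ℚ) :
    ∃ f : ℂ[T;T⁻¹], ∀ x : ℂˣ, LaurentPolynomial.eval₂ (RingHom.id ℂ) x f =
      MvPolynomial.aeval (fun ij => fam A a x ij.1 ij.2) p := by
  refine ⟨MvPolynomial.eval₂Hom ((algebraMap ℂ ℂ[T;T⁻¹]).comp (algebraMap ℚ ℂ))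
    (fun ij => ∑ k, LaurentPolynomial.C (A k ij.1 ij.2) * LaurentPolynomial.T (a k)) p, fun x => ?_⟩
  have h := MvPolynomial.eval₂_comp_left
    (LaurentPolynomial.eval₂ (RingHom.id ℂ) x)
    ((algebraMap ℂ ℂ[T;T⁻¹]).comp (algebraMap ℚ ℂ))
    (fun ij : Fin 5 × Fin 5 =>
      ∑ k, LaurentPolynomial.C (A k ij.1 ij.2) * LaurentPolynomial.T (a k)) p
  rw [MvPolynomial.coe_eval₂Hom, h, MvPolynomial.aeval_def]
  have e1 : (LaurentPolynomial.eval₂ (RingHom.id ℂ) x).comp
      ((algebraMap ℂ ℂ[T;T⁻¹]).comp (algebraMap ℚ ℂ)) = algebraMap ℚ ℂ := Subsingleton.elim _ _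
  rw [e1]
  congr 1
  funext ij
  simp only [Function.comp_apply, map_sum, map_mul, LaurentPolynomial.eval₂_C,
    LaurentPolynomial.eval₂_T, RingHom.id_apply, fam, Matrix.sum_apply, Matrix.smul_apply,
    smul_eq_mul]
  exact Finset.sum_congr rfl fun k _ => mul_comm _ _

/-- If infinitely many members of a Laurent polynomial family lie in an algebraic subgroup, then all
do. -/
theorem mem_of_infinite {H : Subgroup GL5} (hH : IsQSubgroup H) {m : ℕ} (A : Fin m → Mat)
    (a : Fin m → ℤ) (g : ℂˣ → GL5) (hg : ∀ x, (g x : Mat) = fam A a x) (S : Set ℂˣ)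
    (hS : S.Infinite) (h : ∀ x ∈ S, g x ∈ H) (x : ℂˣ) : g x ∈ H := by
  obtain ⟨P, hP⟩ := hH
  rw [hP]
  intro p hp
  obtain ⟨f, hf⟩ := aeval_fam A a p
  have h0 : f = 0 := by
    refine laurent_zero f S hS fun y hy => ?_
    rw [hf y, ← hg y]
    exact (hP _).1 (h y hy) p hp
  rw [hg x, ← hf x, h0, map_zero]

/-- Galois conjugation: if a matrix with entries in `ℚ(ζ)` lies in an algebraic subgroup over `ℚ`,
then so do its conjugates. -/
theorem mem_of_galois {H : Subgroup GL5} (hH : IsQSubgroup H)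
    (M : Matrix (Fin 5) (Fin 5) ℚ[X]) (u : Fin 5) (hu : u ≠ 0) (g g' : GL5)
    (hg : (g : Mat) = M.map (Polynomial.aeval ζ)) (hg' : (g' : Mat) = M.map (Polynomial.aeval (e u)))
    (h : g ∈ H) : g' ∈ H := by
  obtain ⟨P, hP⟩ := hH
  rw [hP] at h ⊢
  intro p hp
  have key : ∀ x : ℂ, MvPolynomial.aeval (fun ij : Fin 5 × Fin 5 =>
      (M.map (Polynomial.aeval x)) ij.1 ij.2) p =
      Polynomial.aeval x (MvPolynomial.aeval (fun ij : Fin 5 × Fin 5 => M ij.1 ij.2) p) := by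
    intro x
    rw [← AlgHom.comp_apply]
    congr 1
    apply MvPolynomial.algHom_ext
    intro ij
    simp
  have h1 := h p hp
  rw [hg, key] at h1
  rw [hg', key]
  have h2 : minpoly ℚ ζ ∣ MvPolynomial.aeval (fun ij : Fin 5 × Fin 5 => M ij.1 ij.2) p :=
    minpoly.dvd ℚ ζ h1
  obtain ⟨r, hr⟩ := h2
  rw [hr, map_mul]
  have h3 : Polynomial.aeval (e u) (minpoly ℚ ζ) = 0 := by
    rw [← Polynomial.cyclotomic_eq_minpoly_rat ζ_prim (by norm_num)]
    have h4 : IsPrimitiveRoot (e u) 5 := by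
      unfold e
      have hc : ∀ u : Fin 5, u ≠ 0 → (u : ℕ).Coprime 5 := by decide
      exact ζ_prim.pow_of_coprime _ (hc u hu)
    have h5 := h4.isRoot_cyclotomic (by norm_num)
    rw [Polynomial.aeval_def, Polynomial.eval₂_eq_eval_map, Polynomial.map_cyclotomic]
    exact h5
  rw [h3, zero_mul]

theorem infinite_rat : {x : ℂˣ | ∃ r : ℚ, r ≠ 0 ∧ (x : ℂ) = (r : ℂ)}.Infinite := by
  refine Set.infinite_of_injective_forall_mem
    (f := fun n : ℕ => Units.mk0 ((n : ℂ) + 1) (by exact_mod_cast n.succ_ne_zero)) ?_ ?_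
  · intro a b h
    have := congrArg Units.val h
    simp only [Units.val_mk0] at this
    exact_mod_cast add_right_cancel this
  · intro n
    refine ⟨(n : ℚ) + 1, ?_, ?_⟩
    · exact_mod_cast n.succ_ne_zero
    · simp

theorem infinite_circle : {x : ℂˣ | ∃ z : ℂ, z ≠ 0 ∧ (x : ℂ) = z / star z}.Infinite := by
  have hne : ∀ n : ℕ, (1 + (n : ℂ) * Complex.I) ≠ 0 := by
    intro n h
    have := congrArg Complex.re h
    simp at this
  have hne' : ∀ n : ℕ, star (1 + (n : ℂ) * Complex.I) ≠ 0 := fun n => star_ne_zero.2 (hne n)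
  refine Set.infinite_of_injective_forall_mem
    (f := fun n : ℕ => Units.mk0 ((1 + (n : ℂ) * Complex.I) / star (1 + (n : ℂ) * Complex.I))
      (div_ne_zero (hne n) (hne' n))) ?_ ?_
  · intro a b h
    have h1 := congrArg Units.val h
    simp only [Units.val_mk0] at h1
    rw [div_eq_div_iff (hne' a) (hne' b)] at h1
    have h2 := congrArg Complex.im h1
    simp at h2
    have h3 : (a : ℝ) = b := by linarith
    exact_mod_cast h3
  · intro n
    exact ⟨_, hne n, rfl⟩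

end Pool.Agent.H320R4.HS
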