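import Pool.Agent.H320R4.HS.HC

/-!
# The plane is rational for every structure which is stable under the stabiliser of `o`
-/

set_option autoImplicit false

namespace Pool.Agent.H320R4.HS

open Matrix

theorem e_mem (k : Fin 5) : e k ∈ Qbar := by
  have h1 : ζ ∈ Qbar := by
    rw [mem_algebraicClosure_iff]
    exact ((ζ_prim.isIntegral (by norm_num)).tower_top (A := ℚ)).isAlgebraic
  exact pow_mem h1 _

theorem shift_o : (Tel (eu 1) (eu 2) : Mat) *ᵥ o = e 1 • o := by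
  rw [Tel_shift]
  funext i
  have h : (toC Sq *ᵥ o) i = e (i + 1) := by
    simp only [mulVec, dotProduct, Fin.sum_univ_five, toC, Sq, map_apply, of_apply, o]
    fin_cases i <;> simp +decide
  rw [h, e_add, Pi.smul_apply, smul_eq_mul, mul_comm]
  rfl

/-- The projection. -/
noncomputable def Φ : Mat →ₗ[ℂ] Mat where
  toFun Y := (Tel (eu 1) (eu 2) : Mat) * Y * (((Tel (eu 1) (eu 2))⁻¹ : GL5) : Mat) - e 1 • Y
  map_add' := by
    intro Y Y'
    rw [Matrix.mul_add, Matrix.add_mul, smul_add]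
    abel
  map_smul' := by
    intro c Y
    rw [Matrix.mul_smul, Matrix.smul_mul, RingHom.id_apply, smul_sub, smul_comm]

theorem Φ_apply (Y : Mat) : Φ Y =
    (Tel (eu 1) (eu 2) : Mat) * Y * (((Tel (eu 1) (eu 2))⁻¹ : GL5) : Mat) - e 1 • Y := rfl

theorem Φ_Yo (a b c : ℂ) : Φ (Yo a b c) = Yo (a * (e 4 - e 1)) 0 (c * (e 2 - e 1)) := by
  rw [Φ_apply, Tel_conj_Yo, Yo_smul]
  have h1 : ∀ a b c a' b' c', Yo a b c - Yo a' b' c' = Yo (a - a') (b - b') (c - c') := by
    intro a b c a' b' c'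
    have := Yo_lin 1 a b c (-1) a' b' c'
    simp only [one_smul, neg_smul, one_mul, neg_mul] at this
    rw [sub_eq_add_neg, this]
    simp only [sub_eq_add_neg]
  rw [h1]
  have h2 : e 4 * e 1 = 1 := by rw [← e_add]; exact e_zero
  have h3 : e 1 * e 1 = e 2 := by rw [← e_add]; rfl
  have h4 : e 2 * (e 1 * e 2) = 1 := by rw [← e_add, ← e_add]; exact e_zero
  have hne := e_ne 1
  have hne2 := e_ne 2
  simp only [eu, Units.val_mk0]
  congr 1
  · field_simp
    linear_combination -a * h2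
  · field_simp
    linear_combination -b * h3
  · field_simp
    linear_combination -c * h4

theorem rational_Vp {L : Submodule Qbar Mat} (hL : IsStructure L (tangent Jm o))
    (hst : StabStable Jm o L) : IsRational L Vp := by
  have hΦ : ∀ Y ∈ L, Φ Y ∈ L := by
    intro Y hY
    rw [Φ_apply]
    refine L.sub_mem ?_ ?_
    · exact hst _ (Tel_mem_SO _ _) ⟨Sq, Tel_shift⟩ ⟨_, shift_o⟩ Y hY
    · exact L.smul_mem (⟨e 1, e_mem 1⟩ : Qbar) hY
  unfold IsRational
  apply le_antisymm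
  · exact Submodule.span_le.2 Set.inter_subset_left
  intro Y hY
  obtain ⟨a, c, rfl⟩ := mem_Vp.1 hY
  obtain ⟨n, b, -, hs, hb⟩ := hL
  have hA : e 4 - e 1 ≠ 0 := by
    intro h
    exact absurd (e_inj (sub_eq_zero.1 h)) (by decide)
  have hC : e 2 - e 1 ≠ 0 := by
    intro h
    exact absurd (e_inj (sub_eq_zero.1 h)) (by decide)
  have h1 : Yo a 0 c = Φ (Yo (a / (e 4 - e 1)) 0 (c / (e 2 - e 1))) := by
    rw [Φ_Yo, div_mul_cancel₀ _ hA, div_mul_cancel₀ _ hC]
  have h2 : Yo (a / (e 4 - e 1)) 0 (c / (e 2 - e 1)) ∈ Submodule.span ℂ (Set.range b) := by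
    rw [hs]
    exact Yo_mem _ _ _
  have h3 := Submodule.mem_map_of_mem (f := Φ) h2
  rw [Submodule.map_span, ← h1] at h3
  refine Submodule.span_mono ?_ h3
  rintro _ ⟨_, ⟨i, rfl⟩, rfl⟩
  refine ⟨?_, ?_⟩
  · have h4 : b i ∈ tangent Jm o := by
      rw [← hs]
      exact Submodule.subset_span ⟨i, rfl⟩
    obtain ⟨a', b', c', h5⟩ := mem_tangent.1 h4
    rw [h5, Φ_Yo]
    exact mem_Vp.2 ⟨_, _, rfl⟩
  · refine hΦ _ ?_
    rw [← hb]
    exact Submodule.subset_span ⟨i, rfl⟩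

theorem signature_Jm : Signature32 Jm := by
  refine ⟨?_, !![1, 0, 6/5, -3/2, 9; 0, 1, -3/2, 0, -15; 0, 0, -9/5, 1, -15; 0, 0, 1, 0, 9;
    0, 0, 0, 0, 1], ![2, 2, 11/10, -5/2, -88], ?_, ?_, ?_, ?_, ?_, ?_, ?_⟩
  · ext i j
    fin_cases i <;> fin_cases j <;> simp [Jm]
  · simp [det_succ_row_zero, Fin.sum_univ_succ, Fin.succAbove]
  · ext i j
    fin_cases i <;> fin_cases j <;>
      simp [Jm, Matrix.mul_apply, Fin.sum_univ_five] <;> norm_num
  · exact (by norm_num : (0 : ℚ) < 2)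
  · exact (by norm_num : (0 : ℚ) < 2)
  · exact (by norm_num : (0 : ℚ) < 11 / 10)
  · exact (by norm_num : (-5 / 2 : ℚ) < 0)
  · exact (by norm_num : (-88 : ℚ) < 0)

theorem o_mem_cone : o ∈ cone Jm := by
  have h := γ_neg (s := 0) le_rfl zero_le_one
  rw [γ_zero] at h
  exact ⟨form_o, h⟩

end Pool.Agent.H320R4.HS
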