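import Pool.Agent.H320R4.HS.MTo

/-!
# The tangent space at `o`
-/

set_option autoImplicit false

namespace Pool.Agent.H320R4.HS

open Matrix

/-- The tangent vectors in the Fourier basis. -/
noncomputable def Ny (a b c : ℂ) : Mat :=
  !![0, a, 0, 0, 0; 0, 0, 0, 0, 0; 0, b, 0, 0, 0; 0, c, 0, 0, 0;
    -(q 0 / q 1 * a), 0, -(q 2 / q 1 * c), -(q 2 / q 1 * b), 0]

/-- The tangent vectors. -/
noncomputable def Yo (a b c : ℂ) : Mat := F * Ny a b c * Fi

theorem Ny_lin (s a b c t a' b' c' : ℂ) :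
    s • Ny a b c + t • Ny a' b' c' = Ny (s * a + t * a') (s * b + t * b') (s * c + t * c') := by
  ext i j
  fin_cases i <;> fin_cases j <;> simp [Ny] <;> ring

theorem Yo_lin (s a b c t a' b' c' : ℂ) :
    s • Yo a b c + t • Yo a' b' c' = Yo (s * a + t * a') (s * b + t * b') (s * c + t * c') := by
  unfold Yo
  rw [← Ny_lin, Matrix.mul_add, Matrix.add_mul, Matrix.mul_smul, Matrix.mul_smul,
    Matrix.smul_mul, Matrix.smul_mul]

theorem Yo_smul (s a b c : ℂ) : s • Yo a b c = Yo (s * a) (s * b) (s * c) := by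
  have := Yo_lin s a b c 0 0 0 0
  simpa using this

theorem Am_apply (k l : Fin 5) : Am k l = if k + l = 0 then 5 * q l else 0 := rfl

theorem q4 : q 4 = q 1 := q_neg 1

theorem q3 : q 3 = q 2 := q_neg 2

theorem Am_eq : Am = !![5 * q 0, 0, 0, 0, 0; 0, 0, 0, 0, 5 * q 1; 0, 0, 0, 5 * q 2, 0;
    0, 0, 5 * q 2, 0, 0; 0, 5 * q 1, 0, 0, 0] := by
  ext i j
  rw [Am_apply]
  fin_cases i <;> fin_cases j <;> simp [q4, q3] <;>
    first
    | rfl
    | (intro h; exact absurd h (by decide))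
    | (rw [if_pos (by decide)])
    | (rw [if_neg (by decide)])

theorem Ny_skew (a b c : ℂ) : (Ny a b c)ᵀ * Am + Am * Ny a b c = 0 := by
  have h := q_ne 1
  rw [Am_eq]
  ext i j
  fin_cases i <;> fin_cases j <;>
    simp [Ny, Matrix.mul_apply, Fin.sum_univ_five] <;> field_simp <;> ring

theorem Ny_weight (a b c l : ℂ) (hl : l ≠ 0) :
    diagonal ![1, l, 1, 1, l⁻¹] * Ny a b c = l⁻¹ • (Ny a b c * diagonal ![1, l, 1, 1, l⁻¹]) := by
  ext i j
  rw [diagonal_mul, Matrix.smul_apply, mul_diagonal]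
  fin_cases i <;> fin_cases j <;> simp [Ny] <;> field_simp

theorem Yo_mem (a b c : ℂ) : Yo a b c ∈ tangent Jm o := by
  constructor
  · have hT : Fᵀ * Fiᵀ = 1 := by rw [← transpose_mul, Fi_mul_F, transpose_one]
    have h1 : (Yo a b c)ᵀ * toC Jm = Fiᵀ * ((Ny a b c)ᵀ * Am) * Fi := by
      rw [JmF]
      unfold Yo
      rw [transpose_mul, transpose_mul]
      calc Fiᵀ * ((Ny a b c)ᵀ * Fᵀ) * (Fiᵀ * Am * Fi)
          = Fiᵀ * (Ny a b c)ᵀ * (Fᵀ * Fiᵀ) * Am * Fi := by simp only [Matrix.mul_assoc]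
        _ = _ := by rw [hT, Matrix.mul_one]; simp only [Matrix.mul_assoc]
    have h2 : toC Jm * Yo a b c = Fiᵀ * (Am * Ny a b c) * Fi := by
      rw [JmF]
      unfold Yo
      calc Fiᵀ * Am * Fi * (F * Ny a b c * Fi)
          = Fiᵀ * Am * (Fi * F) * Ny a b c * Fi := by simp only [Matrix.mul_assoc]
        _ = _ := by rw [Fi_mul_F, Matrix.mul_one]; simp only [Matrix.mul_assoc]
    rw [h1, h2, ← Matrix.add_mul, ← Matrix.mul_add, Ny_skew]
    simp
  · intro z hz
    have hs : star z ≠ 0 := star_ne_zero.2 hz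
    rw [hodge_o z hz, Tel_val]
    have hl : (z / star z) ≠ 0 := div_ne_zero hz hs
    have h1 : (![1, ((lam z hz : ℂˣ) : ℂ), ((1 : ℂˣ) : ℂ), ((1 : ℂˣ) : ℂ)⁻¹,
        ((lam z hz : ℂˣ) : ℂ)⁻¹] : Fin 5 → ℂ) = ![1, z / star z, 1, 1, (z / star z)⁻¹] := by
      simp [lam]
    rw [h1]
    unfold Dm Yo
    have h2 : star z / z = (z / star z)⁻¹ := by rw [inv_div]
    rw [h2]
    calc F * diagonal ![1, z / star z, 1, 1, (z / star z)⁻¹] * Fi * (F * Ny a b c * Fi)
        = F * diagonal ![1, z / star z, 1, 1, (z / star z)⁻¹] * (Fi * F) * Ny a b c * Fi := by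
          simp only [Matrix.mul_assoc]
      _ = F * (diagonal ![1, z / star z, 1, 1, (z / star z)⁻¹] * Ny a b c) * Fi := by
          rw [Fi_mul_F, Matrix.mul_one]
          simp only [Matrix.mul_assoc]
      _ = (z / star z)⁻¹ • (F * (Ny a b c * (Fi * F) *
            diagonal ![1, z / star z, 1, 1, (z / star z)⁻¹]) * Fi) := by
          rw [Ny_weight a b c _ hl, Fi_mul_F, Matrix.mul_one, Matrix.mul_smul, Matrix.smul_mul]
      _ = _ := by simp only [Matrix.mul_assoc]

theorem mem_tangent {Y : Mat} : Y ∈ tangent Jm o ↔ ∃ a b c, Y = Yo a b c := by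
  constructor
  swap
  · rintro ⟨a, b, c, rfl⟩
    exact Yo_mem a b c
  rintro ⟨h1, h2⟩
  set N : Mat := Fi * Y * F with hN
  have hY : Y = F * N * Fi := by
    rw [hN]
    calc Y = (F * Fi) * Y * (F * Fi) := by rw [F_mul_Fi]; simp
      _ = _ := by simp only [Matrix.mul_assoc]
  -- the weight condition for `z = 1 + i`
  have hz : (1 + Complex.I) ≠ 0 := by
    intro h
    have := congrArg Complex.re h
    simp at this
  have h3 := h2 _ hz
  have hl : (1 + Complex.I) / star (1 + Complex.I) = Complex.I := by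
    rw [div_eq_iff (star_ne_zero.2 hz)]
    simp
    linear_combination (1 : ℂ) * Complex.I_sq
  have hl' : star (1 + Complex.I) / (1 + Complex.I) = -Complex.I := by
    rw [← inv_div, hl, Complex.inv_I]
  rw [hl', hodge_o _ hz, Tel_val] at h3
  have h4 : (![1, ((lam _ hz : ℂˣ) : ℂ), ((1 : ℂˣ) : ℂ), ((1 : ℂˣ) : ℂ)⁻¹,
      ((lam _ hz : ℂˣ) : ℂ)⁻¹] : Fin 5 → ℂ) = ![1, Complex.I, 1, 1, -Complex.I] := by
    have : ((lam _ hz : ℂˣ) : ℂ) = Complex.I := hl
    rw [this]
    simp
  rw [h4] at h3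
  have h5 : diagonal ![1, Complex.I, 1, 1, -Complex.I] * N =
      (-Complex.I) • (N * diagonal ![1, Complex.I, 1, 1, -Complex.I]) := by
    have h6 : Fi * (Dm ![1, Complex.I, 1, 1, -Complex.I] * Y) * F =
        diagonal ![1, Complex.I, 1, 1, -Complex.I] * N := by
      rw [hN]
      unfold Dm
      calc Fi * (F * diagonal ![1, Complex.I, 1, 1, -Complex.I] * Fi * Y) * F
          = (Fi * F) * diagonal ![1, Complex.I, 1, 1, -Complex.I] * (Fi * Y * F) := by
            simp only [Matrix.mul_assoc]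
        _ = _ := by rw [Fi_mul_F, Matrix.one_mul]
    have h7 : Fi * ((-Complex.I) • (Y * Dm ![1, Complex.I, 1, 1, -Complex.I])) * F =
        (-Complex.I) • (N * diagonal ![1, Complex.I, 1, 1, -Complex.I]) := by
      rw [Matrix.mul_smul, Matrix.smul_mul, hN]
      unfold Dm
      congr 1
      calc Fi * (Y * (F * diagonal ![1, Complex.I, 1, 1, -Complex.I] * Fi)) * F
          = (Fi * Y * F) * diagonal ![1, Complex.I, 1, 1, -Complex.I] * (Fi * F) := by
            simp only [Matrix.mul_assoc]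
        _ = _ := by rw [Fi_mul_F, Matrix.mul_one]
    rw [← h6, ← h7, h3]
  have h8 : ∀ i j, N i j * ((![1, Complex.I, 1, 1, -Complex.I] : Fin 5 → ℂ) i +
      Complex.I * (![1, Complex.I, 1, 1, -Complex.I] : Fin 5 → ℂ) j) = 0 := by
    intro i j
    have := congrFun (congrFun h5 i) j
    rw [diagonal_mul, Matrix.smul_apply, mul_diagonal, smul_eq_mul] at this
    linear_combination this
  have hv : ∀ i j, ((![1, Complex.I, 1, 1, -Complex.I] : Fin 5 → ℂ) i +
      Complex.I * (![1, Complex.I, 1, 1, -Complex.I] : Fin 5 → ℂ) j) ≠ 0 → N i j = 0 := by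
    intro i j h
    exact (mul_eq_zero.1 (h8 i j)).resolve_right h
  -- the skew condition
  have h9 : Nᵀ * Am + Am * N = 0 := by
    have hT : Fᵀ * Fiᵀ = 1 := by rw [← transpose_mul, Fi_mul_F, transpose_one]
    have hT' : Fiᵀ * Fᵀ = 1 := by rw [← transpose_mul, F_mul_Fi, transpose_one]
    have h10 : Fᵀ * (Yᵀ * toC Jm + toC Jm * Y) * F = Nᵀ * Am + Am * N := by
      rw [← FtJF, hN, transpose_mul, transpose_mul, Matrix.mul_add, Matrix.add_mul]
      congr 1
      · calc Fᵀ * (Yᵀ * toC Jm) * F = Fᵀ * Yᵀ * (Fiᵀ * Fᵀ) * toC Jm * F := by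
              rw [hT', Matrix.mul_one]; simp only [Matrix.mul_assoc]
          _ = _ := by simp only [Matrix.mul_assoc]
      · calc Fᵀ * (toC Jm * Y) * F = Fᵀ * toC Jm * (F * Fi) * Y * F := by
              rw [F_mul_Fi, Matrix.mul_one]; simp only [Matrix.mul_assoc]
          _ = _ := by simp only [Matrix.mul_assoc]
    rw [← h10, h1]
    simp
  rw [Am_eq] at h9
  have hq := q_ne 1
  have s10 := congrFun (congrFun h9 1) 0
  have s13 := congrFun (congrFun h9 1) 3
  have s12 := congrFun (congrFun h9 1) 2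
  simp [Matrix.mul_apply, Matrix.vecMul, dotProduct, Fin.sum_univ_five] at s10 s13 s12
  refine ⟨N 0 1, N 2 1, N 3 1, ?_⟩
  rw [hY]
  unfold Yo
  congr 2
  have zero : ∀ i j : Fin 5, (i, j) ∉ ({(0, 1), (2, 1), (3, 1), (4, 0), (4, 2), (4, 3)} :
      Finset (Fin 5 × Fin 5)) → N i j = 0 := by
    intro i j hij
    apply hv
    revert hij
    fin_cases i <;> fin_cases j <;> intro hij <;>
      first
      | exact absurd (by decide) hij
      | (intro h
         first
         | (have h' := congrArg Complex.re h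
            simp at h'
            done)
         | (have h' := congrArg Complex.im h
            simp at h'
            done)
         | (have h' := congrArg Complex.re h
            norm_num at h'
            done)
         | (have h' := congrArg Complex.im h
            norm_num at h'
            done))
  have e40 : N 4 0 = -(q 0 / q 1 * N 0 1) := by
    field_simp
    linear_combination s10 / 5
  have e42 : N 4 2 = -(q 2 / q 1 * N 3 1) := by
    field_simp
    linear_combination s12 / 5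
  have e43 : N 4 3 = -(q 2 / q 1 * N 2 1) := by
    field_simp
    linear_combination s13 / 5
  ext i j
  by_cases hij : (i, j) ∈ ({(0, 1), (2, 1), (3, 1), (4, 0), (4, 2), (4, 3)} :
      Finset (Fin 5 × Fin 5))
  · simp only [Finset.mem_insert, Finset.mem_singleton, Prod.mk.injEq] at hij
    rcases hij with ⟨rfl, rfl⟩ | ⟨rfl, rfl⟩ | ⟨rfl, rfl⟩ | ⟨rfl, rfl⟩ | ⟨rfl, rfl⟩ | ⟨rfl, rfl⟩
    · simp [Ny]
    · simp [Ny]
    · simp [Ny]
    · rw [e40]; simp [Ny]
    · rw [e42]; simp [Ny]
    · rw [e43]; simp [Ny]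
  · rw [zero i j hij]
    revert hij
    fin_cases i <;> fin_cases j <;> intro hij <;>
      first
      | exact absurd (by decide) hij
      | simp [Ny]

end Pool.Agent.H320R4.HS
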