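import Pool.Agent.H320R4.HS.Fourier
import Pool.Agent.H320R4.HS.QGroup

/-!
# The torus
-/

set_option autoImplicit false

namespace Pool.Agent.H320R4.HS

open Matrix
open scoped Polynomial

/-- The elements of the torus. -/
noncomputable def Tel (x y : ℂˣ) : GL5 := DG ![1, x, y, y⁻¹, x⁻¹]

theorem Tel_val (x y : ℂˣ) :
    (Tel x y : Mat) = Dm ![1, (x : ℂ), (y : ℂ), (y : ℂ)⁻¹, (x : ℂ)⁻¹] := by
  unfold Tel
  rw [DG_val]
  congr 1
  funext k
  fin_cases k <;> simp

theorem Tel_mul (x y x' y' : ℂˣ) : Tel x y * Tel x' y' = Tel (x * x') (y * y') := by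
  unfold Tel
  rw [DG_mul]
  congr 1
  funext k
  fin_cases k <;> simp [mul_comm]

theorem transpose_mul_of_JF {g : Mat} {N : Mat} (hg : g = F * N * Fi) :
    gᵀ * toC Jm * g = Fiᵀ * (Nᵀ * Am * N) * Fi := by
  subst hg
  rw [transpose_mul, transpose_mul, ← FtJF]
  simp only [Matrix.mul_assoc]

theorem JmF : toC Jm = Fiᵀ * Am * Fi := by
  rw [← FtJF]
  have h : Fiᵀ * Fᵀ = 1 := by rw [← transpose_mul, F_mul_Fi, transpose_one]
  calc toC Jm = (Fiᵀ * Fᵀ) * toC Jm * (F * Fi) := by rw [h, F_mul_Fi]; simp
    _ = _ := by simp only [Matrix.mul_assoc]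

theorem det_Dm (d : Fin 5 → ℂ) : (Dm d).det = ∏ k, d k := by
  unfold Dm
  rw [det_mul, det_mul, det_diagonal, mul_right_comm, ← det_mul, F_mul_Fi, det_one, one_mul]

theorem Tel_mem_SO (x y : ℂˣ) : Tel x y ∈ SO Jm := by
  constructor
  · rw [Tel_val]
    refine (transpose_mul_of_JF (N := diagonal ![1, (x : ℂ), (y : ℂ), (y : ℂ)⁻¹, (x : ℂ)⁻¹])
      rfl).trans ?_
    rw [JmF]
    congr 2
    ext k l
    rw [mul_diagonal, diagonal_transpose, diagonal_mul]
    simp only [Am, of_apply]
    by_cases h : k + l = 0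
    · have hl : l = -k := by
        rw [eq_neg_iff_add_eq_zero, add_comm]
        exact h
      subst hl
      have hx : (x : ℂ) ≠ 0 := x.ne_zero
      have hy : (y : ℂ) ≠ 0 := y.ne_zero
      fin_cases k <;> simp <;> field_simp
    · simp [h]
  · rw [Tel_val, det_Dm]
    simp [Fin.prod_univ_five]

/-- The cyclic shift. -/
def Sq : Matrix (Fin 5) (Fin 5) ℚ := Matrix.of fun i j => if i - j + 1 = 0 then 1 else 0

theorem Dm_e : Dm e = toC Sq := by
  ext i j
  rw [Dm_apply]
  have h1 : ∀ i j k : Fin 5, k + (i - j) * k = (i - j + 1) * k := by decide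
  have h : ∀ k, (1 / 5 : ℂ) * (e k * e ((i - j) * k)) = (1 / 5) * e ((i - j + 1) * k) := by
    intro k
    rw [← e_add, h1]
  simp only [h]
  rw [← Finset.mul_sum, sum_e]
  simp only [toC, Sq, map_apply, of_apply]
  split_ifs <;> simp

/-- `e k` as a unit. -/
noncomputable def eu (k : Fin 5) : ℂˣ := Units.mk0 (e k) (e_ne k)

theorem Tel_shift : (Tel (eu 1) (eu 2) : Mat) = toC Sq := by
  rw [Tel_val, ← Dm_e]
  congr 1
  funext k
  fin_cases k
  · simp [e_zero]
  · simp [eu]
  · simp [eu]
  · simp only [eu, Units.val_mk0, ← e_neg]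
    rfl
  · simp only [eu, Units.val_mk0, ← e_neg]
    rfl

/-- The torus: the centralizer of the cyclic shift in `SO(J)`. -/
noncomputable def Tor : Subgroup GL5 := SO Jm ⊓ Subgroup.centralizer {Tel (eu 1) (eu 2)}

theorem e_inj {k l : Fin 5} (h : e k = e l) : k = l := by
  have := ζ_prim.pow_inj k.isLt l.isLt h
  exact Fin.ext this

theorem mem_Tor {g : GL5} : g ∈ Tor ↔ ∃ x y : ℂˣ, g = Tel x y := by
  constructor
  · intro hgT
    obtain ⟨⟨h1, h2⟩, h3⟩ := Subgroup.mem_inf.1 hgT
    rw [Subgroup.mem_centralizer_singleton_iff] at h3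
    set N : Mat := Fi * (g : Mat) * F with hN
    have hg : (g : Mat) = F * N * Fi := by
      rw [hN]
      calc (g : Mat) = (F * Fi) * (g : Mat) * (F * Fi) := by rw [F_mul_Fi]; simp
        _ = _ := by simp only [Matrix.mul_assoc]
    have h4 : (g : Mat) * Dm e = Dm e * (g : Mat) := by
      have := congrArg Units.val h3
      rw [Units.val_mul, Units.val_mul, Tel_shift, ← Dm_e] at this
      exact this
    have h5 : N * diagonal e = diagonal e * N := by
      have h6 : Fi * ((g : Mat) * Dm e) * F = Fi * (Dm e * (g : Mat)) * F := by rw [h4]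
      have h7 : Fi * ((g : Mat) * Dm e) * F = N * diagonal e := by
        rw [hN]
        unfold Dm
        calc Fi * ((g : Mat) * (F * diagonal e * Fi)) * F
            = Fi * (g : Mat) * F * diagonal e * (Fi * F) := by simp only [Matrix.mul_assoc]
          _ = _ := by rw [Fi_mul_F, Matrix.mul_one]
      have h8 : Fi * (Dm e * (g : Mat)) * F = diagonal e * N := by
        rw [hN]
        unfold Dm
        calc Fi * (F * diagonal e * Fi * (g : Mat)) * F
            = (Fi * F) * diagonal e * (Fi * (g : Mat) * F) := by simp only [Matrix.mul_assoc]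
          _ = _ := by rw [Fi_mul_F, Matrix.one_mul]
      rw [← h7, ← h8, h6]
    have h9 : ∀ k l, k ≠ l → N k l = 0 := by
      intro k l hkl
      have := congrFun (congrFun h5 k) l
      rw [mul_diagonal, diagonal_mul] at this
      have h10 : N k l * (e l - e k) = 0 := by linear_combination this
      rcases mul_eq_zero.1 h10 with h | h
      · exact h
      · exact absurd (e_inj (sub_eq_zero.1 h)).symm hkl
    have h11 : N = diagonal fun k => N k k := by
      ext k l
      by_cases hkl : k = l
      · subst hkl; simp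
      · rw [h9 k l hkl, diagonal_apply_ne _ hkl]
    have h12 : Nᵀ * Am * N = Am := by
      have h13 := transpose_mul_of_JF hg
      rw [h1, JmF] at h13
      have h14 : Fᵀ * (Fiᵀ * Am * Fi) * F = Am := by
        have h : Fᵀ * Fiᵀ = 1 := by rw [← transpose_mul, Fi_mul_F, transpose_one]
        calc Fᵀ * (Fiᵀ * Am * Fi) * F = (Fᵀ * Fiᵀ) * Am * (Fi * F) := by
              simp only [Matrix.mul_assoc]
          _ = _ := by rw [h, Fi_mul_F]; simp
      have h15 : Fᵀ * (Fiᵀ * (Nᵀ * Am * N) * Fi) * F = Nᵀ * Am * N := by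
        have h : Fᵀ * Fiᵀ = 1 := by rw [← transpose_mul, Fi_mul_F, transpose_one]
        calc Fᵀ * (Fiᵀ * (Nᵀ * Am * N) * Fi) * F = (Fᵀ * Fiᵀ) * (Nᵀ * Am * N) * (Fi * F) := by
              simp only [Matrix.mul_assoc]
          _ = _ := by rw [h, Fi_mul_F]; simp
      rw [← h15, ← h13, h14]
    have hq : ∀ k, q k ≠ 0 := by
      intro k hk
      have hdet : Am.det ≠ 0 := by
        rw [← FtJF, det_mul, det_mul]
        have hJ : (toC Jm).det ≠ 0 := by
          have : (toC Jm).det = ((Jm.det : ℚ) : ℂ) := by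
            unfold toC
            exact ((algebraMap ℚ ℂ).map_det Jm).symm
          rw [this]
          have h968 : Jm.det = 968 := by
            simp [Jm, det_succ_row_zero, Fin.sum_univ_succ, Fin.succAbove]
            norm_num
          rw [h968]
          norm_num
        have hF : F.det ≠ 0 := by
          intro h0
          have := congrArg Matrix.det F_mul_Fi
          rw [det_mul, h0, zero_mul, det_one] at this
          exact zero_ne_one this
        have hF' : Fᵀ.det ≠ 0 := by rwa [det_transpose]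
        exact mul_ne_zero (mul_ne_zero hF' hJ) hF
      apply hdet
      refine det_eq_zero_of_column_eq_zero k fun j => ?_
      simp only [Am, of_apply]
      rw [hk]
      simp
    have h16 : ∀ k, N k k * N (-k) (-k) = 1 := by
      intro k
      have := congrFun (congrFun h12 k) (-k)
      rw [h11, diagonal_transpose, mul_diagonal, diagonal_mul] at this
      have h17 : Am k (-k) = 5 * q (-k) := by simp [Am]
      rw [h17] at this
      have h18 : (5 * q (-k)) * (N k k * N (-k) (-k) - 1) = 0 := by linear_combination this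
      rcases mul_eq_zero.1 h18 with h | h
      · exact absurd h (mul_ne_zero (by norm_num) (hq _))
      · linear_combination h
    have h19 : N 0 0 = 1 := by
      have hd : N.det = 1 := by
        rw [hN, det_mul, det_mul, h2, mul_one, ← det_mul, Fi_mul_F, det_one]
      rw [h11, det_diagonal, Fin.prod_univ_five] at hd
      have h1' : N 1 1 * N 4 4 = 1 := h16 1
      have h2' : N 2 2 * N 3 3 = 1 := h16 2
      linear_combination hd - N 0 0 * (N 2 2 * N 3 3) * h1' - N 0 0 * h2'
    have h1' : N 1 1 * N 4 4 = 1 := h16 1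
    have h2' : N 2 2 * N 3 3 = 1 := h16 2
    refine ⟨⟨N 1 1, N 4 4, h1', by rw [mul_comm]; exact h1'⟩,
      ⟨N 2 2, N 3 3, h2', by rw [mul_comm]; exact h2'⟩, ?_⟩
    apply Units.ext
    rw [hg, Tel_val]
    unfold Dm
    congr 2
    refine h11.trans ?_
    congr 1
    funext k
    fin_cases k
    · simp [h19]
    · simp
    · simp
    · simpa using eq_inv_of_mul_eq_one_right h2'
    · simpa using eq_inv_of_mul_eq_one_right h1'
  · rintro ⟨x, y, rfl⟩
    refine Subgroup.mem_inf.2 ⟨Tel_mem_SO x y, ?_⟩
    rw [Subgroup.mem_centralizer_singleton_iff]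
    rw [Tel_mul, Tel_mul, mul_comm x, mul_comm y]

end Pool.Agent.H320R4.HS
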